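import Pool.Agent.N917.KR.Stm

namespace Pool.Agent.N917.KR

open Finset
open Pool.Agent.Results.MP_76b19e_co.ForcedCliques (nn cnb cl Admissible minCliques)

namespace Bud

open Pool.Agent.Results.MP_76b19e_co.ForcedCliques

variable {V : Type} [DecidableEq V] (G : SimpleGraph V) [DecidableRel G.Adj]

lemma mem_erase_cnb {X R : Finset V} {v x : V} (hx : x ∈ X) :
    x ∈ cnb G X (R.erase v) ↔ R.filter (fun s => ¬ G.Adj s x) ⊆ {v} := by
  rw [mem_cnb]
  constructor
  · rintro ⟨_, h⟩ s hs
    rw [Finset.mem_filter] at hs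
    rw [Finset.mem_singleton]
    by_contra hne
    exact hs.2 (h s (Finset.mem_erase.2 ⟨hne, hs.1⟩))
  · intro h
    refine ⟨hx, fun s hs => ?_⟩
    rw [Finset.mem_erase] at hs
    by_contra hna
    have := h (Finset.mem_filter.2 ⟨hs.2, hna⟩)
    exact hs.1 (Finset.mem_singleton.1 this)

lemma mem_cnb_iff {X R : Finset V} {x : V} (hx : x ∈ X) :
    x ∈ cnb G X R ↔ R.filter (fun s => ¬ G.Adj s x) = ∅ := by
  rw [mem_cnb, Finset.filter_eq_empty_iff]
  constructor
  · rintro ⟨_, h⟩ s hs
    simpa using h s hs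
  · intro h
    exact ⟨hx, fun s hs => by simpa using h hs⟩

lemma pointwise {X R : Finset V} {x : V} (hx : x ∈ X) :
    2 + R.card * (if x ∈ cnb G X R then 1 else 0) ≤
      (R.filter (fun s => ¬ G.Adj s x)).card +
        (∑ v ∈ R, if x ∈ cnb G X (R.erase v) then 1 else 0) +
        2 * (if x ∈ cnb G X R then 1 else 0) := by
  have hm := mem_cnb_iff G (R := R) hx
  rcases Nat.lt_or_ge (R.filter (fun s => ¬ G.Adj s x)).card 2 with h2 | h2
  · rcases Nat.lt_or_ge (R.filter (fun s => ¬ G.Adj s x)).card 1 with h1 | h1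
    · have h0 : R.filter (fun s => ¬ G.Adj s x) = ∅ := Finset.card_eq_zero.1 (by omega)
      have hs : ∑ v ∈ R, (if x ∈ cnb G X (R.erase v) then 1 else 0) = R.card := by
        rw [Finset.card_eq_sum_ones]
        refine Finset.sum_congr rfl (fun v _ => ?_)
        rw [if_pos]
        rw [mem_erase_cnb G hx, h0]
        exact Finset.empty_subset _
      rw [if_pos (hm.2 h0), hs]
      omega
    · have h11 : (R.filter (fun s => ¬ G.Adj s x)).card = 1 := by omega
      obtain ⟨v, hv⟩ := Finset.card_eq_one.1 h11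
      have hvR : v ∈ R := by
        have : v ∈ R.filter (fun s => ¬ G.Adj s x) := by rw [hv]; simp
        exact (Finset.mem_filter.1 this).1
      have hn : x ∉ cnb G X R := by
        rw [hm, hv]
        simp
      have hs : 1 ≤ ∑ v ∈ R, (if x ∈ cnb G X (R.erase v) then 1 else 0) := by
        have := Finset.single_le_sum
          (f := fun v => if x ∈ cnb G X (R.erase v) then 1 else 0)
          (fun i _ => Nat.zero_le _) hvR
        refine le_trans ?_ this
        rw [if_pos]
        rw [mem_erase_cnb G hx, hv]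
      rw [if_neg hn]
      omega
  · have hn : x ∉ cnb G X R := by
      rw [hm]
      intro h0
      rw [h0] at h2
      simp at h2
    rw [if_neg hn]
    omega

lemma card_cnb_eq (X S : Finset V) :
    (cnb G X S).card = ∑ x ∈ X, if x ∈ cnb G X S then 1 else 0 := by
  rw [← Finset.card_filter]
  congr 1
  ext x
  rw [Finset.mem_filter]
  exact ⟨fun h => ⟨((mem_cnb G).1 h).1, h⟩, fun h => h.2⟩

lemma part1 (X R : Finset V) :
    2 * X.card + R.card * (cnb G X R).card ≤
      ∑ v ∈ R, nn G X v + ∑ v ∈ R, (cnb G X (R.erase v)).card + 2 * (cnb G X R).card := by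
  have h := Finset.sum_le_sum (fun x (hx : x ∈ X) => pointwise G (R := R) hx)
  simp only [Finset.sum_add_distrib, ← Finset.mul_sum] at h
  rw [← card_cnb_eq G X R, ← sum_nn_eq G X R, Finset.sum_comm] at h
  have e : ∑ v ∈ R, (cnb G X (R.erase v)).card =
      ∑ v ∈ R, ∑ x ∈ X, (if x ∈ cnb G X (R.erase v) then 1 else 0) :=
    Finset.sum_congr rfl (fun v _ => card_cnb_eq G X _)
  rw [← e, Finset.sum_const, smul_eq_mul] at h
  linarith

lemma part2 (X R : Finset V) : X.card ≤ (cnb G X R).card + ∑ v ∈ R, nn G X v := by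
  have h1 := card_cnb_add_miss G X R
  have h2 := card_miss_le G X R
  omega

lemma part3 (X R : Finset V) (v : V) :
    (cnb G X (R.erase v)).card ≤ (cnb G X R).card + nn G X v := by
  unfold nn
  refine (Finset.card_le_card ?_).trans (Finset.card_union_le _ _)
  intro x hx
  rw [mem_cnb] at hx
  rw [Finset.mem_union, mem_cnb, Finset.mem_filter]
  by_cases ha : G.Adj v x
  · refine Or.inl ⟨hx.1, fun s hs => ?_⟩
    by_cases hsv : s = v
    · rw [hsv]; exact ha
    · exact hx.2 s (Finset.mem_erase.2 ⟨hsv, hs⟩)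
  · exact Or.inr ⟨hx.1, ha⟩

lemma part4 (X R : Finset V) (hR : R ∈ cl G X R.card) (v : V) (hv : v ∈ R) :
    (cnb G X R).card + 1 ≤ (cnb G X (R.erase v)).card := by
  rw [mem_cl] at hR
  obtain ⟨hRX, hRc⟩ := hR
  apply Finset.card_lt_card
  rw [Finset.ssubset_iff_of_subset]
  · refine ⟨v, ?_, ?_⟩
    · rw [mem_cnb]
      refine ⟨hRX hv, fun s hs => ?_⟩
      rw [Finset.mem_erase] at hs
      exact hRc.1 (Finset.mem_coe.2 hs.2) (Finset.mem_coe.2 hv) hs.1
    · intro h
      rw [mem_cnb] at h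
      exact G.loopless.irrefl v (h.2 v hv)
  · intro x hx
    rw [mem_cnb] at hx ⊢
    exact ⟨hx.1, fun s hs => hx.2 s (Finset.mem_of_mem_erase hs)⟩

end Bud

theorem t_BUD : S_BUD := by
  intro V _ G _ X R
  exact ⟨Bud.part1 G X R, Bud.part2 G X R, fun v _ => Bud.part3 G X R v,
    fun hR v hv => Bud.part4 G X R hR v hv⟩

end Pool.Agent.N917.KR
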