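import Pool.Agent.N917.KR.Stm

/-!
Project KR (helper917), part CRU: two upper bounds for the weights (helper507).
-/

namespace Pool.Agent.N917.KR

open Finset
open Pool.Agent.Results.MP_76b19e_co.ForcedCliques (nn cnb cl Admissible minCliques)

namespace CRU

open Pool.Agent.Results.MP_76b19e_co.ForcedCliques (card_nb nn_mono)

variable {V : Type} [DecidableEq V] (G : SimpleGraph V) [DecidableRel G.Adj]

theorem card_one (X : Finset V) (v : V) : (cnb G X {v}).card + nn G X v = X.card := by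
  have h : cnb G X {v} = X.filter (fun w => G.Adj v w) := by
    unfold cnb
    refine filter_congr fun w _ => ?_
    simp
  rw [h]
  exact card_nb G X v

theorem nn_le (X : Finset V) (v w : V) : nn G (cnb G X {v}) w ≤ nn G X w :=
  nn_mono G (filter_subset _ _) w

theorem gw_nonneg (j : ℕ) : ∀ X S : Finset V, 0 ≤ gw G j X S := by
  induction j with
  | zero => intro X S; simp [gw]
  | succ j ih =>
    intro X S
    rw [gw]
    exact div_nonneg (sum_nonneg fun v _ => ih _ _) (Nat.cast_nonneg _)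

theorem id_aux (b : V → ℕ) (j : ℕ) : ∀ X S : Finset V, S.card = j →
    (∀ v ∈ S, nn G X v ≤ b v ∧ 1 ≤ b v) → ∑ v ∈ S, b v ≤ X.card →
    gw G j X S ≤ ∏ v ∈ S, 1 / (b v : ℝ) := by
  induction j with
  | zero =>
    intro X S hS _ _
    rw [card_eq_zero.1 hS]
    simp [gw]
  | succ j ih =>
    intro X S hS hb hX
    rw [gw]
    have hbR : ∀ v ∈ S, (0 : ℝ) < b v := fun v hv => by
      exact_mod_cast (hb v hv).2
    have hne : S.Nonempty := card_pos.1 (by omega)
    have hsum : (0 : ℝ) < ∑ v ∈ S, (b v : ℝ) := sum_pos hbR hne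
    have hXR : ∑ v ∈ S, (b v : ℝ) ≤ X.card := by exact_mod_cast hX
    have hXpos : (0 : ℝ) < X.card := lt_of_lt_of_le hsum hXR
    have h1 : ∀ v ∈ S, gw G j (cnb G X {v}) (S.erase v) ≤
        (b v : ℝ) * ∏ w ∈ S, 1 / (b w : ℝ) := by
      intro v hv
      have h2 := ih (cnb G X {v}) (S.erase v) (by rw [card_erase_of_mem hv]; omega)
        (fun w hw => ⟨(nn_le G X v w).trans (hb w (mem_of_mem_erase hw)).1,
          (hb w (mem_of_mem_erase hw)).2⟩) (by
          have h3 := card_one G X v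
          have h4 := add_sum_erase S b hv
          have h5 := (hb v hv).1
          omega)
      refine h2.trans (le_of_eq ?_)
      rw [← mul_prod_erase S _ hv, ← mul_assoc, mul_one_div_cancel (hbR v hv).ne', one_mul]
    rw [div_le_iff₀ hXpos]
    refine (sum_le_sum h1).trans ?_
    rw [← sum_mul, mul_comm]
    exact mul_le_mul_of_nonneg_left hXR (prod_nonneg fun w _ => by positivity)

theorem crude_aux (q : ℕ) (e : V → ℕ) (j : ℕ) : ∀ (c : ℕ) (X S : Finset V), S.card = j + 1 →
    1 ≤ c → c + j * q ≤ X.card → (∀ v ∈ S, nn G X v + e v ≤ q) →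
    (q : ℝ) ^ j * gw G (j + 1) X S ≤
      ∑ w ∈ S, 1 / ((c : ℝ) + ∑ u ∈ S.erase w, (e u : ℝ)) := by
  induction j with
  | zero =>
    intro c X S hS hc hX _
    obtain ⟨w, rfl⟩ := card_eq_one.1 hS
    have hcR : (0 : ℝ) < c := by exact_mod_cast hc
    have hXR : (c : ℝ) ≤ X.card := by
      have : c ≤ X.card := by omega
      exact_mod_cast this
    rw [pow_zero, one_mul, gw, sum_singleton, sum_singleton, gw, erase_singleton, sum_empty,
      add_zero]
    exact one_div_le_one_div_of_le hcR hXR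
  | succ j ih =>
    intro c X S hS hc hX hq
    obtain ⟨h, hh⟩ : ∃ h : V → ℝ, h = fun w => 1 / ((c : ℝ) + ∑ u ∈ S.erase w, (e u : ℝ)) :=
      ⟨_, rfl⟩
    have hcR : (0 : ℝ) < c := by exact_mod_cast hc
    have hh0 : ∀ w, 0 ≤ h w := by
      intro w
      rw [hh]
      positivity
    have hstep : ∀ v ∈ S, (q : ℝ) ^ j * gw G (j + 1) (cnb G X {v}) (S.erase v) ≤
        ∑ w ∈ S.erase v, h w := by
      intro v hv
      have h1 := ih (c + e v) (cnb G X {v}) (S.erase v) (by rw [card_erase_of_mem hv]; omega)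
        (by omega) (by
          have h3 := card_one G X v
          have h4 := hq v hv
          have h5 : (j + 1) * q = j * q + q := by ring
          omega) (fun w hw => by
          have h3 := nn_le G X v w
          have h4 := hq w (mem_of_mem_erase hw)
          omega)
      refine h1.trans (le_of_eq ?_)
      refine sum_congr rfl fun w hw => ?_
      rw [hh]
      beta_reduce
      have hwv : v ∈ S.erase w := mem_erase.2 ⟨(mem_erase.1 hw).1.symm, hv⟩
      have h2 := add_sum_erase (S.erase w) (fun u => (e u : ℝ)) hwv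
      rw [← h2, erase_right_comm]
      push_cast
      ring
    have hdouble : ∑ v ∈ S, ∑ w ∈ S.erase v, h w = ((j : ℝ) + 1) * ∑ w ∈ S, h w := by
      have h1 : ∀ v ∈ S, ∑ w ∈ S.erase v, h w = ∑ w ∈ S, h w - h v := by
        intro v hv
        have := add_sum_erase S h hv
        linarith
      rw [sum_congr rfl h1, sum_sub_distrib, sum_const, hS, nsmul_eq_mul]
      push_cast
      ring
    have hXpos : (0 : ℝ) < X.card := by
      have : 0 < X.card := by omega
      exact_mod_cast this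
    have hXR : ((j : ℝ) + 1) * q ≤ X.card := by
      have : (j + 1) * q ≤ X.card := by omega
      exact_mod_cast this
    rw [gw, pow_succ]
    have h2 : (q : ℝ) ^ j * ∑ v ∈ S, gw G (j + 1) (cnb G X {v}) (S.erase v) ≤
        ((j : ℝ) + 1) * ∑ w ∈ S, h w := by
      rw [mul_sum, ← hdouble]
      exact sum_le_sum hstep
    have hS0 : 0 ≤ ∑ w ∈ S, h w := sum_nonneg fun w _ => hh0 w
    have h3 : (q : ℝ) ^ j * q * ((∑ v ∈ S, gw G (j + 1) (cnb G X {v}) (S.erase v)) / X.card) =
        q * ((q : ℝ) ^ j * ∑ v ∈ S, gw G (j + 1) (cnb G X {v}) (S.erase v)) / X.card := by ring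
    rw [h3, div_le_iff₀ hXpos]
    have h4 : (∑ w ∈ S, 1 / ((c : ℝ) + ∑ u ∈ S.erase w, (e u : ℝ))) = ∑ w ∈ S, h w := by
      rw [hh]
    rw [h4]
    calc (q : ℝ) * ((q : ℝ) ^ j * ∑ v ∈ S, gw G (j + 1) (cnb G X {v}) (S.erase v))
        ≤ q * (((j : ℝ) + 1) * ∑ w ∈ S, h w) := mul_le_mul_of_nonneg_left h2 (Nat.cast_nonneg _)
      _ = (∑ w ∈ S, h w) * (((j : ℝ) + 1) * q) := by ring
      _ ≤ (∑ w ∈ S, h w) * X.card := mul_le_mul_of_nonneg_left hXR hS0

end CRU

theorem t_CRUDE : S_CRUDE := by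
  intro V _ G _ q j c e X S hS hc hX hq
  exact ⟨CRU.gw_nonneg G (j + 1) X S, CRU.crude_aux G q e j c X S hS hc hX hq⟩

theorem t_ID : S_ID := by
  intro V _ G _ j b X S hS hb hX
  exact CRU.id_aux G b j X S hS hb hX

end Pool.Agent.N917.KR
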