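import Pool.Agent.N917.KR.Stm

/-!
Project KR (helper917), part FIN (helper216): from the block theorem to the final statement.
-/

set_option autoImplicit false

namespace Pool.Agent.N917.KR

open Finset
open Pool.Agent.Results.MP_76b19e_co.ForcedCliques (nn cnb cl Admissible minCliques SeqHyp
  jumps_sum exists_seq cliqueCount cliqueCount_eq dom_of_admissible)

namespace FIN

lemma gs0 (s : ℕ) : 2 * ∑ i ∈ range s, (s - i) = s * (s + 1) := by
  induction s with
  | zero => simp
  | succ s ih =>
    rw [Finset.sum_range_succ']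
    have h : ∑ i ∈ range s, (s + 1 - (i + 1)) = ∑ i ∈ range s, (s - i) :=
      Finset.sum_congr rfl fun i _ => by omega
    rw [h]
    have h2 : (s + 1) * (s + 1 + 1) = s * (s + 1) + 2 * (s + 1) := by ring
    omega

lemma gs1 (s e : ℕ) : 2 * ∑ i ∈ range (s + e), (s - i) = s * (s + 1) := by
  induction e with
  | zero => exact gs0 s
  | succ e ih =>
    rw [← add_assoc, Finset.sum_range_succ]
    have : s - (s + e) = 0 := by omega
    rw [this, add_zero]
    exact ih

lemma gs (s r : ℕ) (h : s ≤ r) : 2 * ∑ i ∈ range r, (s - (r - 1 - i)) = s * (s + 1) := by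
  rw [Finset.sum_range_reflect (fun i => s - i) r]
  obtain ⟨e, rfl⟩ : ∃ e, r = s + e := ⟨r - s, by omega⟩
  exact gs1 s e

/-- the number of jumps before `i` -/
def J (q : ℕ → ℕ) (i : ℕ) : ℕ := ((range i).filter (fun i => q i ≠ q (i + 1))).card

lemma J_le (q : ℕ → ℕ) (i d : ℕ) : J q (i + d) ≤ J q i + d := by
  induction d with
  | zero => exact le_rfl
  | succ d ih =>
    unfold J at *
    rw [← add_assoc, Finset.range_add_one, Finset.filter_insert]
    split_ifs
    · rw [Finset.card_insert_of_notMem (by simp)]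
      omega
    · omega

/-- the structure of the sequence if the number of jumps is maximal -/
lemma struct {q : ℕ → ℕ} {r s D : ℕ} (hr : 1 ≤ r) (hs : s ≤ r - 1) (h0 : q 0 = D)
    (hm : ∀ i, i + 1 < r → q i ≤ q (i + 1)) (hJ : J q (r - 1) = s)
    (hsum : 2 * ∑ i ∈ range r, q i ≤ 2 * (r * D) + s * (s + 1)) :
    ∀ i < r, q i = D + (s - (r - 1 - i)) := by
  have h1 : ∀ i ∈ range r, D + (s - (r - 1 - i)) ≤ q i := by
    intro i hi
    rw [mem_range] at hi
    have h2 := (jumps_sum q i (fun j hj => hm j (by omega))).1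
    have h3 := J_le q i (r - 1 - i)
    have h4 : i + (r - 1 - i) = r - 1 := by omega
    rw [h4, hJ] at h3
    have h5 : J q i = ((range i).filter (fun i => q i ≠ q (i + 1))).card := rfl
    omega
  have h2 : 2 * ∑ i ∈ range r, (D + (s - (r - 1 - i))) = 2 * (r * D) + s * (s + 1) := by
    rw [Finset.sum_add_distrib, mul_add, gs s r (by omega), Finset.sum_const, card_range,
      smul_eq_mul]
  have h3 : ∑ i ∈ range r, (D + (s - (r - 1 - i))) = ∑ i ∈ range r, q i := by
    apply le_antisymm (Finset.sum_le_sum h1)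
    omega
  intro i hi
  exact ((Finset.sum_eq_sum_iff_of_le h1).1 h3 i (mem_range.2 hi)).symm

/-- the block theorem for a sequence -/
lemma blk_of (hB : S_BLK) {V : Type} [DecidableEq V] [Fintype V] {G : SimpleGraph V}
    [DecidableRel G.Adj] {q : ℕ → ℕ} {m l D : ℕ} (H : SeqHyp G univ (m + l) q) (hm : 2 ≤ m)
    (hD : 16 * (m + l) ^ 2 ≤ D) (h1 : ∀ i < m, q i = D) (h2 : ∀ j < l, D + 1 + j ≤ q (m + j)) :
    D ^ (m - 1) ≤ (cl G univ (m + l + 1)).card := by
  have hs : ∀ j ≤ m, ∑ i ∈ range j, q i = j * D := by
    intro j hj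
    rw [Finset.sum_congr rfl fun i hi => h1 i (by have := mem_range.1 hi; omega), sum_const,
      card_range, smul_eq_mul]
  have h3 := H.hX (m - 1) (by omega)
  rw [hs _ (by omega), h1 (m - 1) (by omega)] at h3
  obtain ⟨X, hXs, hXc⟩ := Finset.exists_subset_card_eq h3
  refine hB V G univ X D m l (fun j => q (m + j)) ⟨hm, hD, subset_univ _, hXc, ?_, h2, ?_, ?_⟩
  · intro x hx
    exact (mem_filter.1 (hXs hx)).2
  · intro j hj
    have h4 := H.hX (m + j) (by omega)
    rw [Finset.sum_range_add, hs m le_rfl] at h4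
    exact h4
  · have h4 := H.hW
    rw [Finset.sum_range_add, hs m le_rfl] at h4
    exact h4

lemma lower (hB : S_BLK) {n k r s : ℕ} (hr : 2 ≤ r) (hD : 16 * r ^ 2 ≤ n - k) (hs : s ≤ r - 1)
    (hn : 2 * n = 2 * (r * (n - k) + 1) + s * (s + 1))
    (hf : s ≤ 1 ∨ (r + 1).factorial ≤ n - k) {G : SimpleGraph (Fin n)}
    (h : Admissible n k r G) : (n - k) ^ (r - 1 - s) ≤ cliqueCount G (r + 1) := by
  classical
  obtain ⟨q, hq, hq0⟩ := exists_seq G (by omega) h
  rw [cliqueCount_eq]
  have hD0 : 1 ≤ n - k := by
    have : 1 ≤ r ^ 2 := Nat.one_le_pow _ _ (by omega)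
    omega
  rcases Nat.eq_zero_or_pos (r - 1 - s) with hz | hz
  · rw [hz, pow_zero]
    exact hq.one_le
  have hW := hq.hW
  rw [card_univ, Fintype.card_fin] at hW
  have hJ1 := (jumps_sum q (r - 1) (fun i hi => hq.hm i (by omega))).2
  have hrr : r - 1 + 1 = r := by omega
  rw [hrr, hq0] at hJ1
  have hJdef : J q (r - 1) = ((range (r - 1)).filter (fun i => q i ≠ q (i + 1))).card := rfl
  rw [← hJdef] at hJ1
  have hJs : J q (r - 1) ≤ s := by
    by_contra hcon
    push Not at hcon
    have h1 : (s + 1) * (s + 1 + 1) ≤ J q (r - 1) * (J q (r - 1) + 1) :=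
      Nat.mul_le_mul (by omega) (by omega)
    have h2 : (s + 1) * (s + 1 + 1) = s * (s + 1) + 2 * (s + 1) := by ring
    omega
  rcases Nat.lt_or_eq_of_le hJs with hlt | heq
  · rcases hf with hf | hf
    · -- no jumps
      have hJ0 : J q (r - 1) = 0 := by omega
      have hs1 : s = 1 := by omega
      have hno : ∀ i < r - 1, q i = q (i + 1) := by
        intro i hi
        by_contra hne
        have h1 : i ∈ (range (r - 1)).filter (fun i => q i ≠ q (i + 1)) :=
          mem_filter.2 ⟨mem_range.2 hi, hne⟩
        have h2 := card_pos.2 ⟨i, h1⟩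
        omega
      have hall : ∀ i < r, q i = n - k := by
        intro i
        induction i with
        | zero => intro _; exact hq0
        | succ i ih =>
          intro hi
          rw [← hno i (by omega)]
          exact ih (by omega)
      have h1 := blk_of hB (G := G) (q := q) (m := r) (l := 0) (D := n - k) (by simpa using hq) hr
        (by simpa using hD) hall (fun j hj => absurd hj (by omega))
      rw [add_zero] at h1
      exact (Nat.pow_le_pow_right hD0 (by omega)).trans h1
    · have h1 := hq.ordered (by omega)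
      rw [hq0] at h1
      have h2 : ((range (r - 1)).filter (fun i => q i = q (i + 1))).card + J q (r - 1) = r - 1 := by
        have := Finset.card_filter_add_card_filter_not (s := range (r - 1))
          (fun i => q i = q (i + 1))
        rw [Finset.card_range] at this
        exact this
      have h3 : (n - k) * (n - k) ^ (r - 1 - s) ≤ (n - k) * (cl G univ (r + 1)).card := by
        calc (n - k) * (n - k) ^ (r - 1 - s) = (n - k) ^ (r - 1 - s + 1) := by
              rw [pow_succ, mul_comm]
          _ ≤ (n - k + 1) ^ (r - 1 - s + 1) := Nat.pow_le_pow_left (by omega) _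
          _ ≤ (n - k + 1) ^ ((range (r - 1)).filter (fun i => q i = q (i + 1))).card :=
              Nat.pow_le_pow_right (by omega) (by omega)
          _ ≤ (r + 1).factorial * (cl G univ (r + 1)).card := h1
          _ ≤ (n - k) * (cl G univ (r + 1)).card := Nat.mul_le_mul_right _ hf
      exact Nat.le_of_mul_le_mul_left h3 (by omega)
  · have hst := struct (q := q) (r := r) (s := s) (D := n - k) (by omega) hs hq0 hq.hm heq
      (by omega)
    obtain ⟨m, hm⟩ : ∃ m, r = m + s := ⟨r - s, by omega⟩
    subst hm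
    have h1 := blk_of hB (G := G) (q := q) (m := m) (l := s) (D := n - k) hq (by omega) hD
      (fun i hi => by
        rw [hst i (by omega)]
        omega)
      (fun j hj => by
        rw [hst (m + j) (by omega)]
        omega)
    have h2 : m + s - 1 - s = m - 1 := by omega
    rw [h2]
    exact h1

end FIN

open FIN in
/-- the final statement -/
theorem t_FIN : S_BLK → S_FIN := by
  intro hB n k r hr hk hD s hs hn hf
  have hdom : r * (n - k) + 1 ≤ n := by omega
  have hst : s * (s + 1) = 2 * (n - 1 - r * (n - k)) := by omega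
  have hst2 : 2 * (n - 1 - r * (n - k)) < (s + 1) * (s + 2) := by
    rw [← hst]
    nlinarith
  have hres := Pool.Agent.Results.MP_76b19e_co.ForcedCliques.result n k r hr
  apply le_antisymm
  · exact (hres.2 hk hdom s hs hst.le (Or.inr hst2)).1
  · have hne : {N | ∃ G : SimpleGraph (Fin n), Admissible n k r G ∧
        cliqueCount G (r + 1) = N}.Nonempty := by
      obtain ⟨G, hG⟩ := hres.1.2 ⟨hk, hdom⟩
      exact ⟨_, G, hG, rfl⟩
    have hmem := Nat.sInf_mem hne
    obtain ⟨G, hG, hGc⟩ := hmem
    unfold minCliques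
    rw [← hGc]
    exact lower hB hr hD hs hn hf hG

end Pool.Agent.N917.KR
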