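import Pool.Agent.N917.KR.Stm

/-!
Project KR (helper917), MP_76b19e_co: the first level of the flow (helper543).
-/

set_option autoImplicit false

namespace Pool.Agent.N917.KR

open Finset
open Pool.Agent.Results.MP_76b19e_co.ForcedCliques (nn cnb cl mem_cl nn_mono)

namespace FL1

/-- sums of the weights divided by the degrees -/
theorem aux_sum {V : Type} (R A : Finset V) (hA : A ⊆ R) (p α : V → ℝ) (P g Q T : ℝ)
    (hP : 0 ≤ P) (hg : 1 ≤ g) (hQ : 0 < Q) (hp : ∀ v ∈ A, p v ≤ P) (h1 : ∀ v ∈ R, g ≤ α v)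
    (h2 : ∀ v ∈ R, α v ≤ Q) (h3 : ∑ v ∈ R, (Q - α v) ≤ T * Q) (h4 : (R.card : ℝ) * 48 ≤ Q) :
    ∑ v ∈ A, p v / α v ≤ P * (1 / 48 + T / g) := by
  have hg0 : 0 < g := by linarith
  have s1 : ∑ v ∈ A, p v / α v ≤ ∑ v ∈ R, P / α v := by
    refine (Finset.sum_le_sum fun v hv => ?_).trans
      (Finset.sum_le_sum_of_subset_of_nonneg hA fun v hv _ => ?_)
    · exact div_le_div_of_nonneg_right (hp v hv) (hg0.le.trans (h1 v (hA hv)))
    · exact div_nonneg hP (hg0.le.trans (h1 v hv))
  have s2 : ∀ v ∈ R, P / α v ≤ P * (1 / Q + (Q - α v) / (g * Q)) := by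
    intro v hv
    have a0 : 0 < α v := hg0.trans_le (h1 v hv)
    rw [div_eq_mul_one_div]
    refine mul_le_mul_of_nonneg_left ?_ hP
    have e : 1 / α v = 1 / Q + (Q - α v) / (α v * Q) := by
      field_simp
      ring
    rw [e]
    refine add_le_add_right ?_ _
    refine div_le_div_of_nonneg_left (sub_nonneg.2 (h2 v hv)) (by positivity) ?_
    exact mul_le_mul_of_nonneg_right (h1 v hv) hQ.le
  refine s1.trans ((Finset.sum_le_sum s2).trans ?_)
  rw [← Finset.mul_sum, Finset.sum_add_distrib, Finset.sum_const, nsmul_eq_mul,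
    ← Finset.sum_div]
  refine mul_le_mul_of_nonneg_left (add_le_add ?_ ?_) hP
  · rw [mul_one_div, div_le_div_iff₀ hQ (by norm_num)]
    linarith
  · rw [div_le_div_iff₀ (by positivity) hg0]
    have : (∑ v ∈ R, (Q - α v)) * g ≤ T * Q * g := mul_le_mul_of_nonneg_right h3 hg0.le
    linarith

end FL1

open FL1 in
theorem t_FL1 : S_CRUDE → S_RL → S_BUD → S_FL1 := by
  intro hC hRL hB V _ G _ W X q m l τ hb hl R hR
  obtain ⟨j, rfl⟩ : ∃ j, m = j + 1 := ⟨m - 1, by have := hb.hm; omega⟩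
  have hj : 1 ≤ j := by have := hb.hm; omega
  obtain ⟨hRX, hRc⟩ := (mem_cl G).1 hR
  have hcard : R.card = j + 2 := hRc.card_eq
  have hX : X.card = j * q + 1 := by have := hb.hX; simpa using this
  have hq : 16 * (j + 2) ^ 2 ≤ q := by
    refine le_trans ?_ hb.hq
    have : j + 2 ≤ j + 1 + l := by omega
    gcongr
  have hn1 : ∀ v ∈ R, nn G X v ≤ q := fun v hv =>
    (nn_mono G hb.hXW v).trans (hb.hc v (hRX hv))
  have hn2 : ∀ v ∈ R, 1 ≤ nn G X v := by
    intro v hv
    refine Finset.card_pos.2 ⟨v, ?_⟩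
    rw [Finset.mem_filter]
    exact ⟨hRX hv, G.loopless.irrefl v⟩
  set e : V → ℕ := fun v => q - nn G X v with he
  have hne : ∀ v ∈ R, nn G X v + e v = q := fun v hv => by
    have := hn1 v hv
    simp only [he]
    omega
  have he1 : ∀ v ∈ R, e v + 1 ≤ q := fun v hv => by
    have := hne v hv
    have := hn2 v hv
    omega
  have hes : ∀ S : Finset V, es G q X S = ∑ v ∈ S, e v := fun S => rfl
  set E : ℕ := es G q X R with hE
  have hEs : ∀ v ∈ R, es G q X (R.erase v) + e v = E := fun v hv => by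
    rw [hE, hes, hes]
    exact Finset.sum_erase_add R e hv
  have hEs2 : ∀ v ∈ R, ∀ w ∈ R.erase v, ∑ u ∈ (R.erase v).erase w, e u + e w + e v = E :=
    fun v hv w hw => by
      rw [Finset.sum_erase_add _ e hw, ← hes]
      exact hEs v hv
  set un : ℕ := (cnb G X R).card with hun
  set α : V → ℕ := fun v => (cnb G X (R.erase v)).card with hα
  have hsn : ∑ v ∈ R, nn G X v + E = (j + 2) * q := by
    rw [hE, hes, ← Finset.sum_add_distrib, Finset.sum_congr rfl hne, Finset.sum_const, hcard,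
      smul_eq_mul]
  obtain ⟨b1, b2, b3, b4⟩ := hB V G X R
  rw [hcard] at b1 b4
  have b4' : ∀ v ∈ R, un + 1 ≤ α v := b4 hR
  have b3' : ∀ v ∈ R, α v ≤ un + q := fun v hv =>
    (b3 v hv).trans (Nat.add_le_add_left (hn1 v hv) _)
  -- the real quantities
  set Q : ℝ := (q : ℝ) + un with hQ
  have hq0 : (0 : ℝ) < q := by
    have : 0 < q := lt_of_lt_of_le (by positivity) hq
    exact_mod_cast this
  have hQ0 : 0 < Q := by
    have : (0 : ℝ) ≤ un := Nat.cast_nonneg _
    linarith
  have hqr : (16 : ℝ) * ((j : ℝ) + 2) ^ 2 ≤ q := by exact_mod_cast hq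
  have hjr : (1 : ℝ) ≤ j := by exact_mod_cast hj
  have h48 : (R.card : ℝ) * 48 ≤ Q := by
    rw [hcard]
    push_cast
    have : (0 : ℝ) ≤ un := Nat.cast_nonneg _
    nlinarith
  have hsum : ∑ v ∈ R, (Q - (α v : ℝ)) ≤ 4 * q - 2 - E + 2 * un := by
    rw [Finset.sum_sub_distrib, Finset.sum_const, hcard, nsmul_eq_mul, ← Nat.cast_sum]
    have b1r : (2 : ℝ) * (X.card : ℝ) + ((j : ℝ) + 2) * un ≤
        ((∑ v ∈ R, nn G X v : ℕ) : ℝ) + ((∑ v ∈ R, α v : ℕ) : ℝ) + 2 * un := by
      exact_mod_cast b1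
    have hsnr : ((∑ v ∈ R, nn G X v : ℕ) : ℝ) + E = ((j : ℝ) + 2) * q := by
      exact_mod_cast hsn
    rw [hX] at b1r
    push_cast at b1r hsnr ⊢
    rw [hQ]
    nlinarith
  have hEun : (E : ℝ) + 1 ≤ un + 2 * q := by
    have : E + 1 ≤ un + 2 * q := by
      have h5 : j * q + 1 + E ≤ un + (j + 2) * q := by
        rw [← hsn, ← hX]
        omega
      have h6 : (j + 2) * q = j * q + 2 * q := by ring
      omega
    exact_mod_cast this
  have hEun' : E + 1 ≤ un + 2 * q := by exact_mod_cast hEun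
  -- the flow
  set A : Finset V := R.filter
    (fun v => q + ∑ i ∈ range 0, τ i ≤ es G q X (R.erase v)) with hA
  have hAR : A ⊆ R := Finset.filter_subset _ _
  have hAq : ∀ v ∈ A, q ≤ es G q X (R.erase v) := fun v hv => by
    have := (Finset.mem_filter.1 hv).2
    simpa using this
  set p : V → ℝ := fun v => (q : ℝ) ^ j * gw G (j + 1) X (R.erase v) with hp
  have hfl : fl G q (j + 1) τ X 1 R = ∑ v ∈ A, p v / (α v : ℝ) := rfl
  have heps : 2 * ((j : ℝ)) / q ≤ 1 / 64 := by
    rw [div_le_div_iff₀ hq0 (by norm_num)]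
    nlinarith [sq_nonneg ((j : ℝ) - 2)]
  have hpb : ∀ d : ℕ, (∀ v ∈ A, ∀ w ∈ R.erase v, d + e w + e v ≤ E) → ∀ v ∈ A,
      p v ≤ 1 / (1 + (d : ℝ)) + 1 / 64 := by
    intro d hd v hv
    have hvR := hAR hv
    have hc : (R.erase v).card = j + 1 := by
      rw [Finset.card_erase_of_mem hvR, hcard]
      rfl
    have h1 := (hC V G q j 1 e X (R.erase v) hc le_rfl (by rw [hX]; omega)
      (fun u hu => (hne u (Finset.mem_of_mem_erase hu)).le)).2
    have h2 := hRL V q d e (R.erase v) (by exact_mod_cast hq0)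
      (Finset.card_pos.1 (by omega)) (by rw [← hes]; exact hAq v hv)
      (fun w hw => by
        have h3 := hd v hv w hw
        have h4 := hEs2 v hvR w hw
        omega)
    rw [hc] at h2
    push_cast at h1 h2
    have h5 : 2 * ((j : ℝ) + 1 - 1) / q ≤ 1 / 64 := by
      rw [add_sub_cancel_right]
      exact heps
    calc p v ≤ _ := h1
      _ ≤ _ := h2
      _ ≤ _ := by linarith
  have main : ∀ (d g : ℕ) (T : ℝ), 1 ≤ g → g ≤ un + 1 →
      (∀ v ∈ A, ∀ w ∈ R.erase v, d + e w + e v ≤ E) →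
      (4 * q - 2 - E + 2 * un : ℝ) ≤ T * Q →
      fl G q (j + 1) τ X 1 R ≤ (1 / (1 + (d : ℝ)) + 1 / 64) * (1 / 48 + T / g) := by
    intro d g T hg1 hg2 hd hT
    rw [hfl]
    refine aux_sum R A hAR p (fun v => (α v : ℝ)) _ g Q T (by positivity) (by exact_mod_cast hg1)
      hQ0 (hpb d hd) (fun v hv => ?_) (fun v hv => ?_) (hsum.trans hT) h48
    · exact_mod_cast hg2.trans (b4' v hv)
    · rw [hQ, add_comm]
      exact_mod_cast b3' v hv
  have hunr : (0 : ℝ) ≤ un := Nat.cast_nonneg _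
  have two : 2 * q ≤ E → fl G q (j + 1) τ X 1 R ≤ 1 := by
    intro h2
    have h2r : (2 : ℝ) * q ≤ E := by exact_mod_cast h2
    refine (main 2 2 2 (by norm_num) (by omega) (fun v hv w hw => ?_) ?_).trans (by norm_num)
    · have := he1 v (hAR hv)
      have := he1 w (Finset.mem_of_mem_erase hw)
      omega
    · rw [hQ]
      linarith
  refine ⟨?_, two, fun h3 => ?_⟩
  · rcases le_or_gt (2 * q) E with h | h
    · exact (two h).trans (by norm_num)
    · rcases A.eq_empty_or_nonempty with h0 | ⟨v0, hv0⟩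
      · rw [hfl, h0, Finset.sum_empty]
        norm_num
      · have hqE : q ≤ E := by
          have h5 := hAq v0 hv0
          have h6 := hEs v0 (hAR hv0)
          omega
        have hqEr : (q : ℝ) ≤ E := by exact_mod_cast hqE
        refine (main 1 1 3 le_rfl (by omega) (fun v hv w hw => ?_) ?_).trans (by norm_num)
        · have h5 := hAq v hv
          have h6 := hEs v (hAR hv)
          have := he1 w (Finset.mem_of_mem_erase hw)
          omega
        · rw [hQ]
          linarith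
  · have hτ := hb.hτ 0 (by omega)
    have h4 : 2 * q + 1 ≤ E := by omega
    have h4r : (2 : ℝ) * q + 1 ≤ E := by exact_mod_cast h4
    refine (main 3 3 2 (by norm_num) (by omega) (fun v hv w hw => ?_) ?_).trans (by norm_num)
    · have := he1 v (hAR hv)
      have := he1 w (Finset.mem_of_mem_erase hw)
      omega
    · rw [hQ]
      linarith

end Pool.Agent.N917.KR
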