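import Pool.Agent.N917.KR.Stm

/-!
Project KR (helper917), part FL2: higher levels of the flow.  Author: helper451.
-/

namespace Pool.Agent.N917.KR

open Finset
open Pool.Agent.Results.MP_76b19e_co.ForcedCliques (nn cnb cl Admissible minCliques)

namespace FL2

variable {V : Type} [DecidableEq V] (G : SimpleGraph V) [DecidableRel G.Adj]

/-- `es` plus the sum of `nn`. -/
theorem es_add {q : ℕ} {X : Finset V} (hX : ∀ x ∈ X, nn G X x ≤ q) {S : Finset V} (hS : S ⊆ X) :
    es G q X S + ∑ v ∈ S, nn G X v = S.card * q := by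
  unfold es
  rw [← Finset.sum_add_distrib, Finset.sum_congr rfl (g := fun _ => q)]
  · simp
  · intro v hv
    have := hX v (hS hv)
    omega

theorem tau_sum {q l : ℕ} {τ : ℕ → ℕ} (hτ : ∀ j < l, q + 1 + j ≤ τ j) :
    ∀ j ≤ l, 2 * (j * q) + j * (j + 1) ≤ 2 * ∑ i ∈ range j, τ i := by
  intro j
  induction j with
  | zero => intro _; simp
  | succ j ih =>
    intro hj
    have h1 := ih (by omega)
    have h2 := hτ j (by omega)
    rw [Finset.sum_range_succ]
    nlinarith

theorem step (hBUD : S_BUD) {W X : Finset V} {q m l : ℕ} {τ : ℕ → ℕ} (hB : Blk G W X q m l τ)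
    {κ : ℕ} (hκ1 : 1 ≤ κ) (hκ : κ ≤ l) {R : Finset V} (hR : R ∈ cl G X (m + (κ + 1))) {c : ℝ}
    (hc : 0 ≤ c)
    (hfl : ∀ v ∈ R, q + ∑ i ∈ range κ, τ i ≤ es G q X (R.erase v) →
      fl G q m τ X κ (R.erase v) ≤ c) :
    fl G q m τ X (κ + 1) R ≤ c * (((κ : ℝ) + 3) / (1 + (κ : ℝ) * (κ + 1) / 2) + 1 / 36) := by
  have hcl := hR
  rw [Pool.Agent.Results.MP_76b19e_co.ForcedCliques.mem_cl] at hR
  have hRX : R ⊆ X := hR.1
  have hcard : R.card = m + (κ + 1) := hR.2.card_eq
  have hnn : ∀ v ∈ X, nn G X v ≤ q := fun v hv =>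
    (Pool.Agent.Results.MP_76b19e_co.ForcedCliques.nn_mono G hB.hXW v).trans (hB.hc v hv)
  obtain ⟨m', rfl⟩ : ∃ m', m = m' + 1 := ⟨m - 1, by have := hB.hm; omega⟩
  have hXc : X.card = m' * q + 1 := by simpa using hB.hX
  have hq := hB.hq
  have hm := hB.hm
  have hτ := tau_sum hB.hτ κ hκ
  have hqpos : 0 < q := by nlinarith
  set g : ℝ := 1 + (κ : ℝ) * (κ + 1) / 2 with hg
  have hgpos : 0 < g := by positivity
  set un : ℕ := (cnb G X R).card with hun
  have hE := es_add G hnn hRX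
  set E : ℕ := es G q X R with hEdef
  -- the good vertices
  set A : Finset V := R.filter (fun v => q + ∑ i ∈ range κ, τ i ≤ es G q X (R.erase v)) with hA
  have hunf : fl G q (m' + 1) τ X (κ + 1) R =
      ∑ v ∈ A, fl G q (m' + 1) τ X κ (R.erase v) / (cnb G X (R.erase v)).card := rfl
  rw [hunf]
  by_cases hAe : A = ∅
  · rw [hAe, Finset.sum_empty]
    positivity
  obtain ⟨v0, hv0⟩ := Finset.nonempty_iff_ne_empty.mpr hAe
  have hAR : ∀ v ∈ A, v ∈ R := fun v hv => (Finset.mem_filter.mp hv).1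
  have hAq : ∀ v ∈ A, q + ∑ i ∈ range κ, τ i ≤ es G q X (R.erase v) :=
    fun v hv => (Finset.mem_filter.mp hv).2
  -- lower bound for alpha
  have hα : ∀ v ∈ A, g ≤ ((cnb G X (R.erase v)).card : ℝ) := by
    intro v hv
    have hvR := hAR v hv
    have h1 := (hBUD V G X (R.erase v)).2.1
    have h2 := es_add G hnn ((Finset.erase_subset v R).trans hRX)
    rw [Finset.card_erase_of_mem hvR, hcard] at h2
    have h3 := hAq v hv
    have h4 : m' + 1 + (κ + 1) - 1 = m' + 1 + κ := by omega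
    rw [h4] at h2
    rw [hXc] at h1
    have h1' : ((m' : ℝ) * q + 1) ≤ (cnb G X (R.erase v)).card +
        ∑ v ∈ R.erase v, (nn G X v : ℝ) := by exact_mod_cast h1
    have h2' : (es G q X (R.erase v) : ℝ) + ∑ v ∈ R.erase v, (nn G X v : ℝ) =
        ((m' : ℝ) + 1 + κ) * q := by exact_mod_cast h2
    have h3' : (q : ℝ) + ∑ i ∈ range κ, (τ i : ℝ) ≤ es G q X (R.erase v) := by exact_mod_cast h3
    have h5' : 2 * ((κ : ℝ) * q) + (κ : ℝ) * (κ + 1) ≤ 2 * ∑ i ∈ range κ, (τ i : ℝ) := by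
      exact_mod_cast hτ
    rw [hg]
    nlinarith
  -- E is large
  have hEl : (κ + 1 : ℝ) * q ≤ E := by
    have h3 := hAq v0 hv0
    have h4 : es G q X (R.erase v0) ≤ E := by
      unfold es at *
      exact Finset.sum_le_sum_of_subset (Finset.erase_subset v0 R)
    have h3' : (q : ℝ) + ∑ i ∈ range κ, (τ i : ℝ) ≤ E := by exact_mod_cast h3.trans h4
    have h5' : 2 * ((κ : ℝ) * q) + (κ : ℝ) * (κ + 1) ≤ 2 * ∑ i ∈ range κ, (τ i : ℝ) := by
      exact_mod_cast hτ
    have h6 : (0 : ℝ) ≤ (κ : ℝ) * (κ + 1) := by positivity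
    nlinarith
  -- the budget
  have hbud := (hBUD V G X R).1
  have hthird := (hBUD V G X R).2.2.1
  set Q : ℝ := (q : ℝ) + un with hQ
  have hq' : (0 : ℝ) < q := by exact_mod_cast hqpos
  have hun0 : (0 : ℝ) ≤ un := by positivity
  have hQpos : 0 < Q := by positivity
  have hQα : ∀ v ∈ R, ((cnb G X (R.erase v)).card : ℝ) ≤ Q := by
    intro v hv
    have h1 := hthird v hv
    have h2 := hnn v (hRX hv)
    have h3 : (cnb G X (R.erase v)).card ≤ un + q := by omega
    have h3' : ((cnb G X (R.erase v)).card : ℝ) ≤ (un : ℝ) + q := by exact_mod_cast h3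
    rw [hQ]; linarith
  have hsum : ∑ v ∈ R, (Q - ((cnb G X (R.erase v)).card : ℝ)) ≤ ((κ : ℝ) + 3) * Q := by
    rw [Finset.sum_sub_distrib, Finset.sum_const, nsmul_eq_mul, hcard]
    rw [hXc, hcard] at hbud
    have hbud' : 2 * ((m' : ℝ) * q + 1) + ((m' : ℝ) + 1 + (κ + 1)) * un ≤
        ∑ v ∈ R, (nn G X v : ℝ) + ∑ v ∈ R, ((cnb G X (R.erase v)).card : ℝ) + 2 * un := by
      exact_mod_cast hbud
    rw [hcard] at hE
    have hE' : (E : ℝ) + ∑ v ∈ R, (nn G X v : ℝ) = ((m' : ℝ) + 1 + (κ + 1)) * q := by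
      exact_mod_cast hE
    have h7 : (0 : ℝ) ≤ (κ : ℝ) * un := by positivity
    push_cast
    rw [hQ]
    nlinarith
  have hsumA : ∑ v ∈ A, (Q - ((cnb G X (R.erase v)).card : ℝ)) ≤ ((κ : ℝ) + 3) * Q := by
    refine le_trans (Finset.sum_le_sum_of_subset_of_nonneg (Finset.filter_subset _ _) ?_) hsum
    intro v hv _
    linarith [hQα v hv]
  have hAc : (A.card : ℝ) ≤ (m' : ℝ) + 1 + (κ + 1) := by
    have h1 : A.card ≤ R.card := Finset.card_le_card (Finset.filter_subset _ _)
    rw [hcard] at h1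
    exact_mod_cast h1
  have hsmall : ((m' : ℝ) + 1 + (κ + 1)) / Q ≤ 1 / 36 := by
    rw [div_le_div_iff₀ hQpos (by norm_num)]
    have h1 : (16 : ℝ) * ((m' : ℝ) + 1 + l) ^ 2 ≤ q := by exact_mod_cast hq
    have h2 : (κ : ℝ) ≤ l := by exact_mod_cast hκ
    have h3 : (3 : ℝ) ≤ (m' : ℝ) + 1 + l := by
      have : 3 ≤ m' + 1 + l := by omega
      exact_mod_cast this
    have h4 : (q : ℝ) ≤ Q := by rw [hQ]; linarith
    nlinarith
  have hterm : ∀ v ∈ A, fl G q (m' + 1) τ X κ (R.erase v) / (cnb G X (R.erase v)).card ≤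
      c * (1 / Q + (Q - ((cnb G X (R.erase v)).card : ℝ)) / (g * Q)) := by
    intro v hv
    have h1 := hα v hv
    have h2 := hQα v (hAR v hv)
    set x : ℝ := ((cnb G X (R.erase v)).card : ℝ) with hx
    have hxpos : 0 < x := lt_of_lt_of_le hgpos h1
    have h3 : fl G q (m' + 1) τ X κ (R.erase v) / x ≤ c / x :=
      div_le_div_of_nonneg_right (hfl v (hAR v hv) (hAq v hv)) hxpos.le
    refine h3.trans ?_
    rw [div_eq_mul_one_div]
    refine mul_le_mul_of_nonneg_left ?_ hc
    have h4 : 1 / x = 1 / Q + (Q - x) / (x * Q) := by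
      field_simp
      ring
    rw [h4]
    have h5 : (Q - x) / (x * Q) ≤ (Q - x) / (g * Q) := by
      apply div_le_div_of_nonneg_left (by linarith) (by positivity)
      exact mul_le_mul_of_nonneg_right h1 hQpos.le
    linarith
  refine (Finset.sum_le_sum hterm).trans ?_
  rw [← Finset.mul_sum]
  refine mul_le_mul_of_nonneg_left ?_ hc
  rw [Finset.sum_add_distrib, Finset.sum_const, nsmul_eq_mul, ← Finset.sum_div]
  have h1 : (A.card : ℝ) * (1 / Q) ≤ 1 / 36 := by
    refine le_trans ?_ hsmall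
    rw [mul_one_div]
    exact div_le_div_of_nonneg_right hAc hQpos.le
  have h2 : (∑ v ∈ A, (Q - ((cnb G X (R.erase v)).card : ℝ))) / (g * Q) ≤
      ((κ : ℝ) + 3) / g := by
    rw [div_le_div_iff₀ (by positivity) hgpos]
    nlinarith
  linarith

end FL2

theorem t_FL2 : S_BUD → S_FL2 := by
  intro hBUD V _ G _ W X q m l τ hB h1
  have key : ∀ κ, 2 ≤ κ → κ ≤ l + 1 → ∀ R ∈ cl G X (m + κ),
      fl G q m τ X κ R ≤ (if κ = 2 then 21 / 50 else 11 / 20 : ℝ) := by
    intro κ h2
    induction κ, h2 using Nat.le_induction with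
    | base =>
      intro hl R hR
      have := FL2.step G hBUD hB (κ := 1) le_rfl (by omega) hR (c := 1 / 5) (by norm_num)
        (by
          intro v hv hcond
          refine h1 (R.erase v) ?_ (by simpa using hcond)
          rw [Pool.Agent.Results.MP_76b19e_co.ForcedCliques.mem_cl] at hR ⊢
          refine ⟨(Finset.erase_subset v R).trans hR.1, ?_, ?_⟩
          · exact hR.2.isClique.subset (by simpa using Finset.erase_subset v R)
          · rw [Finset.card_erase_of_mem hv, hR.2.card_eq]; omega)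
      refine this.trans ?_
      norm_num
    | succ κ h2 ih =>
      intro hl R hR
      have hstep := FL2.step G hBUD hB (κ := κ) (by omega) (by omega) hR
        (c := if κ = 2 then 21 / 50 else 11 / 20) (by split_ifs <;> norm_num)
        (by
          intro v hv hcond
          refine ih (by omega) (R.erase v) ?_
          rw [Pool.Agent.Results.MP_76b19e_co.ForcedCliques.mem_cl] at hR ⊢
          refine ⟨(Finset.erase_subset v R).trans hR.1, ?_, ?_⟩
          · exact hR.2.isClique.subset (by simpa using Finset.erase_subset v R)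
          · rw [Finset.card_erase_of_mem hv, hR.2.card_eq]; omega)
      refine hstep.trans ?_
      rw [if_neg (show ¬ (κ + 1 = 2) by omega)]
      rcases Nat.eq_or_lt_of_le h2 with h | h
      · subst h
        norm_num
      · rw [if_neg (by omega)]
        have h3 : (3 : ℝ) ≤ κ := by exact_mod_cast h
        have h4 : ((κ : ℝ) + 3) / (1 + (κ : ℝ) * (κ + 1) / 2) ≤ 6 / 7 := by
          rw [div_le_div_iff₀ (by positivity) (by norm_num)]
          nlinarith
        linarith
  intro κ h2 hl R hR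
  refine (key κ h2 hl R hR).trans ?_
  split_ifs <;> norm_num

end Pool.Agent.N917.KR
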