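import Pool.Agent.N917.KR.Stm

/-!
Project KR, subtask KR/LAST (helper531): recursion by the last vertex.
-/

set_option autoImplicit false

namespace Pool.Agent.N917.KR

open Finset
open Pool.Agent.Results.MP_76b19e_co.ForcedCliques (nn cnb cl Admissible minCliques mem_cnb)

namespace LAST

theorem cnb_empty {V : Type} [DecidableEq V] (G : SimpleGraph V) [DecidableRel G.Adj]
    (X : Finset V) : cnb G X ∅ = X := by
  ext x
  rw [mem_cnb]
  simp

theorem cnb_erase {V : Type} [DecidableEq V] (G : SimpleGraph V) [DecidableRel G.Adj]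
    (X K : Finset V) {v w : V} (hv : v ∈ K) (hw : w ≠ v) :
    cnb G (cnb G X {v}) ((K.erase v).erase w) = cnb G X (K.erase w) := by
  ext x
  simp only [mem_cnb, mem_singleton, forall_eq, mem_erase, and_assoc]
  constructor
  · rintro ⟨h1, h2, h3⟩
    refine ⟨h1, fun s hs => ?_⟩
    by_cases h : s = v
    · rw [h]; exact h2
    · exact h3 s ⟨hs.1, h, hs.2⟩
  · rintro ⟨h1, h2⟩
    exact ⟨h1, h2 v ⟨hw.symm, hv⟩, fun s hs => h2 s ⟨hs.1, hs.2.2⟩⟩

end LAST

theorem t_LAST : S_LAST := by
  intro V _ G _ j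
  induction j with
  | zero =>
    intro X K hK
    obtain ⟨v, rfl⟩ := card_eq_one.1 hK
    simp only [gw, sum_singleton, erase_singleton, LAST.cnb_empty]
  | succ j ih =>
    intro X K hK
    have h1 : gw G (j + 1 + 1) X K =
      (∑ v ∈ K, gw G (j + 1) (cnb G X {v}) (K.erase v)) / X.card := rfl
    have h2 : ∑ v ∈ K, gw G (j + 1) (cnb G X {v}) (K.erase v) =
        ∑ v ∈ K, ∑ w ∈ K.erase v, gw G j (cnb G X {v}) ((K.erase v).erase w) /
          (cnb G X (K.erase w)).card := by
      apply sum_congr rfl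
      intro v hv
      rw [ih (cnb G X {v}) (K.erase v) (by rw [card_erase_of_mem hv]; omega)]
      apply sum_congr rfl
      intro w hw
      rw [LAST.cnb_erase G X K hv (ne_of_mem_erase hw)]
    have h3 : ∑ v ∈ K, ∑ w ∈ K.erase v, gw G j (cnb G X {v}) ((K.erase v).erase w) /
          ((cnb G X (K.erase w)).card : ℝ) =
        ∑ w ∈ K, ∑ v ∈ K.erase w, gw G j (cnb G X {v}) ((K.erase v).erase w) /
          ((cnb G X (K.erase w)).card : ℝ) := by
      apply sum_comm'
      intro v w
      simp only [mem_erase]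
      constructor
      · rintro ⟨h1, h2, h3⟩; exact ⟨⟨h2.symm, h1⟩, h3⟩
      · rintro ⟨⟨h1, h2⟩, h3⟩; exact ⟨h2, h1.symm, h3⟩
    rw [h1, h2, h3, sum_div]
    apply sum_congr rfl
    intro w _
    have h4 : gw G (j + 1) X (K.erase w) =
      (∑ v ∈ K.erase w, gw G j (cnb G X {v}) ((K.erase w).erase v)) / X.card := rfl
    rw [h4, sum_div, sum_div, sum_div]
    apply sum_congr rfl
    intro v _
    rw [erase_right_comm, div_right_comm]

end Pool.Agent.N917.KR
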