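import Pool.Agent.N917.KR.Stm

/-!
Project KR (helper917), part NUMP: the local inequality of the pure block (written by helper284).
-/

set_option autoImplicit false

namespace Pool.Agent.N917.KR

open Finset

namespace NUMP

variable {V : Type} [DecidableEq V] {K : Finset V} {q r E un : ℕ} {e α β : V → ℕ} {p : V → ℝ}

lemma er (F : FactP K q r E un e α β p) {v : V} (hv : v ∈ K) :
    e v + ∑ u ∈ K.erase v, e u = E := by
  rw [F.hE]
  exact Finset.add_sum_erase K e hv

lemma er2 (F : FactP K q r E un e α β p) {v w : V} (hv : v ∈ K) (hw : w ∈ K.erase v) :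
    e v + (e w + ∑ u ∈ (K.erase v).erase w, e u) = E := by
  rw [Finset.add_sum_erase _ e hw]
  exact er F hv

lemma hq1 (F : FactP K q r E un e α β p) : 64 * r ≤ q + 64 := by
  have h1 := F.hq
  zify at h1 ⊢
  nlinarith [sq_nonneg ((r : ℤ) - 2)]

lemma q64 (F : FactP K q r E un e α β p) : 64 ≤ q := by
  have h1 := F.hq
  have h2 := F.hr
  nlinarith

lemma epsb (F : FactP K q r E un e α β p) : 2 * ((r : ℝ) - 1) / q ≤ 1 / 32 := by
  have h1 : (64 * r : ℝ) ≤ q + 64 := by exact_mod_cast hq1 F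
  have h2 : (64 : ℝ) ≤ q := by exact_mod_cast q64 F
  rw [div_le_iff₀ (by linarith)]
  linarith

lemma pb (RL : S_RL) (F : FactP K q r E un e α β p) {v : V} (hv : v ∈ K) (h : q + e v ≤ E)
    (d : ℕ) (hd : ∀ w ∈ K.erase v, e v + e w + d ≤ E) :
    p v ≤ 1 / (1 + (d : ℝ)) + 2 * ((r : ℝ) - 1) / q := by
  have hc : (K.erase v).card = r := by
    rw [card_erase_of_mem hv, F.hK]
    rfl
  have h64 := q64 F
  have hr := F.hr
  have h1 := RL V q d e (K.erase v) (by omega) (Finset.card_pos.1 (by omega))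
    (by have := er F hv; omega)
    (fun w hw => by have := er2 F hv hw; have := hd w hw; omega)
  rw [hc] at h1
  exact (F.hp v hv).trans h1

lemma phalf (RL : S_RL) (F : FactP K q r E un e α β p) {v : V} (hv : v ∈ K)
    (h : q + e v ≤ E) : p v ≤ 1 / 2 + 2 * ((r : ℝ) - 1) / q := by
  have h1 := pb RL F hv h 1 (fun w hw => by
    have := F.he w (Finset.mem_of_mem_erase hw)
    omega)
  norm_num at h1 ⊢
  exact h1

lemma pr (F : FactP K q r E un e α β p) {v : V} (hv : v ∈ K) : p v ≤ r := by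
  have hc : (K.erase v).card = r := by
    rw [card_erase_of_mem hv, F.hK]
    rfl
  refine (F.hp v hv).trans ?_
  calc ∑ w ∈ K.erase v, 1 / ((1 : ℝ) + ∑ u ∈ (K.erase v).erase w, (e u : ℝ)) ≤
        ∑ w ∈ K.erase v, (1 : ℝ) := by
        refine Finset.sum_le_sum fun w _ => ?_
        have h1 : (0 : ℝ) ≤ ∑ u ∈ (K.erase v).erase w, (e u : ℝ) :=
          Finset.sum_nonneg fun _ _ => Nat.cast_nonneg _
        rw [div_le_one (by linarith)]
        linarith
    _ = r := by rw [Finset.sum_const, hc, nsmul_eq_mul, mul_one]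

/-- outside of `J` the terms are not positive -/
lemma out (RL : S_RL) (F : FactP K q r E un e α β p) {v : V} (hv : v ∈ K) (hb : β v ≠ 0) :
    p v ≤ β v := by
  by_cases h : E + 1 ≤ q + e v
  · have h1 := F.hp1 v hv h
    have h2 : (q : ℝ) + e v ≤ E + β v := by exact_mod_cast F.hβ v hv
    linarith
  · have h1 := phalf RL F hv (by omega)
    have h2 := epsb F
    have h3 : (1 : ℝ) ≤ β v := by exact_mod_cast Nat.one_le_iff_ne_zero.2 hb
    linarith

/-- the defects of the `α v` -/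
lemma defe (F : FactP K q r E un e α β p) (hJ : ∃ v ∈ K, β v = 0) :
    ∑ v ∈ K.filter (fun v => β v = 0), (((q : ℝ) + un) - α v) ≤ 2 * ((q : ℝ) + un - 1) := by
  have hr := F.hr
  have b1 : 2 * (((r : ℝ) - 1) * q + 1) + (r + 1) * un + E ≤
      (r + 1) * q + ∑ v ∈ K, (α v : ℝ) + 2 * un := by
    have h := F.bud
    have h' : ((2 * ((r - 1) * q + 1) + (r + 1) * un + E : ℕ) : ℝ) ≤
      (((r + 1) * q + ∑ v ∈ K, α v + 2 * un : ℕ) : ℝ) := by exact_mod_cast h
    push_cast [Nat.cast_sub (by omega : 1 ≤ r)] at h'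
    exact h'
  have b2 : 2 * (q : ℝ) + ∑ v ∈ K.filter (fun v => β v = 0), (e v : ℝ) ≤ 2 * E := by
    exact_mod_cast F.y4 hJ
  have b3 : (E : ℝ) = ∑ v ∈ K, (e v : ℝ) := by
    rw [F.hE]
    push_cast
    rfl
  have b4 : ∑ v ∈ K.filter (fun v => β v = 0), (((q : ℝ) + un) - e v - α v) ≤
      ∑ v ∈ K, (((q : ℝ) + un) - e v - α v) := by
    refine Finset.sum_le_sum_of_subset_of_nonneg (Finset.filter_subset _ _) fun v hv _ => ?_
    have : (α v : ℝ) + e v ≤ un + q := by exact_mod_cast F.hα2 v hv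
    linarith
  have b5 : ∑ v ∈ K, (((q : ℝ) + un) - e v - α v) =
      (r + 1) * ((q : ℝ) + un) - E - ∑ v ∈ K, (α v : ℝ) := by
    rw [Finset.sum_sub_distrib, Finset.sum_sub_distrib, Finset.sum_const, F.hK, nsmul_eq_mul, b3]
    push_cast
    ring
  have b6 : ∑ v ∈ K.filter (fun v => β v = 0), (((q : ℝ) + un) - α v) =
      ∑ v ∈ K.filter (fun v => β v = 0), (((q : ℝ) + un) - e v - α v) +
      ∑ v ∈ K.filter (fun v => β v = 0), (e v : ℝ) := by
    rw [← Finset.sum_add_distrib]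
    exact Finset.sum_congr rfl fun v _ => by ring
  rw [b6]
  linarith

/-- the bound for the sum of the reciprocals -/
lemma rec (F : FactP K q r E un e α β p) (hJ : ∃ v ∈ K, β v = 0) {g : ℝ} (hg : 0 < g)
    (hgα : ∀ v ∈ K, g ≤ α v) :
    ∑ v ∈ K.filter (fun v => β v = 0), 1 / (α v : ℝ) ≤
      ((r : ℝ) + 1) / ((q : ℝ) + un) + 2 * ((q : ℝ) + un - 1) / (g * ((q : ℝ) + un)) := by
  have h64 : (64 : ℝ) ≤ q := by exact_mod_cast q64 F
  have hun : (0 : ℝ) ≤ un := Nat.cast_nonneg _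
  have hQ : 0 < (q : ℝ) + un := by linarith
  have h1 : ∀ v ∈ K.filter (fun v => β v = 0), 1 / (α v : ℝ) ≤
      1 / ((q : ℝ) + un) + (((q : ℝ) + un) - α v) / (g * ((q : ℝ) + un)) := by
    intro v hv
    have hvK := (Finset.mem_filter.1 hv).1
    have h2 := hgα v hvK
    have h3 : (α v : ℝ) ≤ (q : ℝ) + un := by
      have : α v + e v ≤ un + q := F.hα2 v hvK
      have h4 : α v ≤ q + un := by omega
      exact_mod_cast h4
    have h4 : 0 < (α v : ℝ) := lt_of_lt_of_le hg h2
    have h5 : 1 / (α v : ℝ) - 1 / ((q : ℝ) + un) =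
        (((q : ℝ) + un) - α v) / (α v * ((q : ℝ) + un)) := by
      field_simp
    have h6 : (((q : ℝ) + un) - α v) / (α v * ((q : ℝ) + un)) ≤
        (((q : ℝ) + un) - α v) / (g * ((q : ℝ) + un)) := by
      refine div_le_div_of_nonneg_left (by linarith) (by positivity) ?_
      exact mul_le_mul_of_nonneg_right h2 hQ.le
    linarith
  refine (Finset.sum_le_sum h1).trans ?_
  rw [Finset.sum_add_distrib, Finset.sum_const, nsmul_eq_mul, ← Finset.sum_div, mul_one_div]
  refine add_le_add ?_ ?_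
  · refine div_le_div_of_nonneg_right ?_ hQ.le
    have h2 : (K.filter (fun v => β v = 0)).card ≤ r + 1 := by
      rw [← F.hK]
      exact Finset.card_filter_le _ _
    exact_mod_cast h2
  · exact div_le_div_of_nonneg_right (defe F hJ) (by positivity)

lemma split (F : FactP K q r E un e α β p) :
    ∑ v ∈ K, (p v - β v) / α v = ∑ v ∈ K.filter (fun v => β v = 0), p v / α v -
      ∑ v ∈ K.filter (fun v => ¬ β v = 0), (β v - p v) / α v := by
  rw [← Finset.sum_filter_add_sum_filter_not K (fun v => β v = 0), sub_eq_add_neg,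
    ← Finset.sum_neg_distrib]
  congr 1
  · refine Finset.sum_congr rfl fun v hv => ?_
    rw [(Finset.mem_filter.1 hv).2, Nat.cast_zero, sub_zero]
  · refine Finset.sum_congr rfl fun v _ => ?_
    ring

lemma αpos (F : FactP K q r E un e α β p) {v : V} (hv : v ∈ K) : (1 : ℝ) ≤ α v := by
  have h := F.hα v hv
  have h1 : 1 ≤ α v := by omega
  exact_mod_cast h1

lemma outnn (RL : S_RL) (F : FactP K q r E un e α β p) :
    0 ≤ ∑ v ∈ K.filter (fun v => ¬ β v = 0), (β v - p v) / α v := by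
  refine Finset.sum_nonneg fun v hv => ?_
  rw [Finset.mem_filter] at hv
  have h1 := out RL F hv.1 hv.2
  exact div_nonneg (by linarith) (by positivity)

/-- the sum over `J` from bounds of the `p v` -/
lemma sumJ (F : FactP K q r E un e α β p) {c : ℝ}
    (hc : ∀ v ∈ K.filter (fun v => β v = 0), p v ≤ c) :
    ∑ v ∈ K.filter (fun v => β v = 0), p v / α v ≤
      c * ∑ v ∈ K.filter (fun v => β v = 0), 1 / (α v : ℝ) := by
  rw [Finset.mul_sum]
  refine Finset.sum_le_sum fun v hv => ?_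
  rw [mul_one_div]
  exact div_le_div_of_nonneg_right (hc v hv) (Nat.cast_nonneg _)

/-- the exceptional case -/
lemma exc (F : FactP K q r E un e α β p) (hun : un = 0) (hJ : ∃ v ∈ K, β v = 0)
    (hout : ∀ v ∈ K, β v ≠ 0 → p v ≤ β v) {v₁ v₂ : V} (h₁ : v₁ ∈ K) (h₂ : v₂ ∈ K)
    (h12 : v₁ ≠ v₂) (e₁ : e v₁ + 1 = q) (e₂ : e v₂ + 1 = q) (hE : E + 1 = 2 * q) :
    ∑ v ∈ K, (p v - β v) / α v ≤ 1 := by
  have h64 := q64 F
  have h64' : (64 : ℝ) ≤ q := by exact_mod_cast h64
  have hr := F.hr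
  -- the remaining vertices
  have m2 : v₂ ∈ K.erase v₁ := Finset.mem_erase.2 ⟨h12.symm, h₂⟩
  have s1 := er2 F h₁ m2
  have s2 : ∑ u ∈ (K.erase v₁).erase v₂, e u = 1 := by omega
  obtain ⟨z, hz, hz0⟩ : ∃ z ∈ (K.erase v₁).erase v₂, e z ≠ 0 := by
    by_contra hcon
    push Not at hcon
    rw [Finset.sum_eq_zero hcon] at s2
    exact absurd s2 (by norm_num)
  have s3 := Finset.add_sum_erase _ e hz
  have ez : e z = 1 := by omega
  have s4 : ∑ u ∈ ((K.erase v₁).erase v₂).erase z, e u = 0 := by omega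
  have s5 : ∀ u ∈ ((K.erase v₁).erase v₂).erase z, e u = 0 := Finset.sum_eq_zero_iff.1 s4
  have hprod : ∏ v ∈ K, ((q : ℝ) - e v) = ((q : ℝ) - 1) * q ^ (r - 2) := by
    rw [← Finset.mul_prod_erase K _ h₁, ← Finset.mul_prod_erase _ _ m2,
      ← Finset.mul_prod_erase _ _ hz]
    have t1 : (q : ℝ) - e v₁ = 1 := by
      have : (e v₁ : ℝ) + 1 = q := by exact_mod_cast e₁
      linarith
    have t2 : (q : ℝ) - e v₂ = 1 := by
      have : (e v₂ : ℝ) + 1 = q := by exact_mod_cast e₂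
      linarith
    have t3 : ∏ v ∈ ((K.erase v₁).erase v₂).erase z, ((q : ℝ) - e v) = (q : ℝ) ^ (r - 2) := by
      have hc : (((K.erase v₁).erase v₂).erase z).card = r - 2 := by
        rw [card_erase_of_mem hz, card_erase_of_mem m2, card_erase_of_mem h₁, F.hK]
        omega
      rw [← hc, ← Finset.prod_const]
      refine Finset.prod_congr rfl fun v hv => ?_
      rw [s5 v hv, Nat.cast_zero, sub_zero]
    rw [t1, t2, t3, ez, Nat.cast_one, one_mul, one_mul]
  have hid := F.id hE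
  rw [hprod] at hid
  have hpw : (q : ℝ) ^ (r - 1) = q * q ^ (r - 2) := by
    rw [← pow_succ']
    congr 1
    omega
  rw [hpw, mul_div_mul_right _ _ (by positivity)] at hid
  -- some `β v` is positive
  have y3 := F.y3 hJ
  obtain ⟨v, hv, hbv⟩ : ∃ v ∈ K, β v ≠ 0 := by
    by_contra hcon
    push Not at hcon
    rw [Finset.sum_eq_zero hcon] at y3
    omega
  have hev : e v ≠ 0 := fun h => hbv (F.y5 hJ v hv h)
  have ha := F.hα2 v hv
  have ha1 : α v + 1 ≤ q := by omega
  have ha2 : (α v : ℝ) ≤ (q : ℝ) - 1 := by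
    have : (α v : ℝ) + 1 ≤ q := by exact_mod_cast ha1
    linarith
  have ha3 := αpos F hv
  have hb1 : (1 : ℝ) ≤ β v := by exact_mod_cast Nat.one_le_iff_ne_zero.2 hbv
  have hsb : 1 / ((q : ℝ) - 1) ≤ ∑ v ∈ K, (β v : ℝ) / α v := by
    calc 1 / ((q : ℝ) - 1) ≤ 1 / (α v : ℝ) := one_div_le_one_div_of_le (by linarith) ha2
      _ ≤ (β v : ℝ) / α v := div_le_div_of_nonneg_right hb1 (by linarith)
      _ ≤ ∑ v ∈ K, (β v : ℝ) / α v :=
        Finset.single_le_sum (f := fun v => (β v : ℝ) / α v) (fun _ _ => by positivity) hv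
  have h7 : ∑ v ∈ K, (p v - β v) / α v = ∑ v ∈ K, p v / α v - ∑ v ∈ K, (β v : ℝ) / α v := by
    rw [← Finset.sum_sub_distrib]
    exact Finset.sum_congr rfl fun v _ => by ring
  rw [h7]
  have h8 : (q : ℝ) / ((q : ℝ) - 1) - 1 / ((q : ℝ) - 1) = 1 := by
    rw [← sub_div]
    exact div_self (by linarith)
  linarith

end NUMP

open NUMP in
theorem t_NUMP : S_RL → S_NUMP := by
  intro RL V _ K q r E un e α β p F
  have h64 := q64 F
  have h64' : (64 : ℝ) ≤ q := by exact_mod_cast h64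
  have hq0 : (0 : ℝ) < q := by linarith
  have hr := F.hr
  have hr' : (2 : ℝ) ≤ r := by exact_mod_cast hr
  have hqr : 16 * (r : ℝ) ^ 2 ≤ q := by exact_mod_cast F.hq
  have heps := epsb F
  have heps0 : 0 ≤ 2 * ((r : ℝ) - 1) / q := div_nonneg (by linarith) hq0.le
  have hsp := split F
  have ho := outnn RL F
  by_cases hJ : ∃ v ∈ K, β v = 0
  swap
  · have h1 : K.filter (fun v => β v = 0) = ∅ := by
      rw [Finset.filter_eq_empty_iff]
      intro v hv h
      exact hJ ⟨v, hv, h⟩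
    rw [h1, Finset.sum_empty] at hsp
    linarith
  -- `J` is not empty
  have inJ : ∀ v ∈ K.filter (fun v => β v = 0), v ∈ K ∧ q + e v ≤ E := by
    intro v hv
    rw [Finset.mem_filter] at hv
    have := F.hβ v hv.1
    exact ⟨hv.1, by omega⟩
  have ph : ∀ v ∈ K.filter (fun v => β v = 0), p v ≤ 1 / 2 + 2 * ((r : ℝ) - 1) / q :=
    fun v hv => phalf RL F (inJ v hv).1 (inJ v hv).2
  have sJ := sumJ F ph
  by_cases hun : 1 ≤ un
  · have hun' : (1 : ℝ) ≤ un := by exact_mod_cast hun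
    have hrec := rec F hJ (g := 2) (by norm_num) (fun v hv => by
      have := F.hα v hv
      have h2 : 2 ≤ α v := by omega
      exact_mod_cast h2)
    have h1 : ((r : ℝ) + 1) / ((q : ℝ) + un) + 2 * ((q : ℝ) + un - 1) / (2 * ((q : ℝ) + un)) ≤
        17 / 16 := by
      rw [mul_div_mul_left _ _ (by norm_num), ← add_div, div_le_iff₀ (by linarith)]
      have h2 : (64 * r : ℝ) ≤ q + 64 := by exact_mod_cast hq1 F
      linarith
    have h2 : 0 ≤ ∑ v ∈ K.filter (fun v => β v = 0), 1 / (α v : ℝ) :=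
      Finset.sum_nonneg fun _ _ => by positivity
    have h3 : (1 / 2 + 2 * ((r : ℝ) - 1) / q) *
        ∑ v ∈ K.filter (fun v => β v = 0), 1 / (α v : ℝ) ≤ (17 / 32) * (17 / 16) :=
      mul_le_mul (by linarith) (hrec.trans h1) h2 (by norm_num)
    linarith
  have hun0 : un = 0 := by omega
  have hrec : ∑ v ∈ K.filter (fun v => β v = 0), 1 / (α v : ℝ) ≤ 2 + ((r : ℝ) - 1) / q := by
    refine (rec F hJ (g := 1) (by norm_num) (fun v hv => αpos F hv)).trans (le_of_eq ?_)
    rw [hun0]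
    push_cast
    field_simp
    ring
  have hS0 : 0 ≤ ∑ v ∈ K.filter (fun v => β v = 0), 1 / (α v : ℝ) :=
    Finset.sum_nonneg fun _ _ => by positivity
  have hδ : ((r : ℝ) - 1) / q ≤ 1 / 64 := by
    have h2 : (64 * r : ℝ) ≤ q + 64 := by exact_mod_cast hq1 F
    rw [div_le_iff₀ hq0]
    linarith
  by_cases hc : 8 * r ^ 2 + E ≤ 2 * q
  · -- many free places
    have y3 : 2 * (q : ℝ) ≤ E + ∑ v ∈ K, (β v : ℝ) := by exact_mod_cast F.y3 hJ
    have hc' : 8 * (r : ℝ) ^ 2 + E ≤ 2 * q := by exact_mod_cast hc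
    have h1 : ∑ v ∈ K.filter (fun v => ¬ β v = 0), ((β v : ℝ) - p v) / q ≤
        ∑ v ∈ K.filter (fun v => ¬ β v = 0), (β v - p v) / α v := by
      refine Finset.sum_le_sum fun v hv => ?_
      rw [Finset.mem_filter] at hv
      have h2 := out RL F hv.1 hv.2
      have h3 := αpos F hv.1
      have h4 : (α v : ℝ) ≤ q := by
        have := F.hα2 v hv.1
        have h5 : α v ≤ q := by omega
        exact_mod_cast h5
      exact div_le_div_of_nonneg_left (by linarith) (by linarith) h4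
    have h2 : ∑ v ∈ K.filter (fun v => ¬ β v = 0), (β v : ℝ) = ∑ v ∈ K, (β v : ℝ) := by
      rw [Finset.sum_filter]
      refine Finset.sum_congr rfl fun v _ => ?_
      by_cases h : β v = 0
      · rw [if_neg (not_not.2 h), h, Nat.cast_zero]
      · rw [if_pos h]
    have h3 : ∑ v ∈ K.filter (fun v => ¬ β v = 0), p v ≤ ((r : ℝ) + 1) * r := by
      calc ∑ v ∈ K.filter (fun v => ¬ β v = 0), p v ≤
            ∑ v ∈ K.filter (fun v => ¬ β v = 0), (r : ℝ) :=
            Finset.sum_le_sum fun v hv => pr F (Finset.mem_filter.1 hv).1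
        _ = ((K.filter (fun v => ¬ β v = 0)).card : ℝ) * r := by
            rw [Finset.sum_const, nsmul_eq_mul]
        _ ≤ ((r : ℝ) + 1) * r := by
            refine mul_le_mul_of_nonneg_right ?_ (by linarith)
            have h4 : (K.filter (fun v => ¬ β v = 0)).card ≤ r + 1 := by
              rw [← F.hK]
              exact Finset.card_filter_le _ _
            exact_mod_cast h4
    have h4 : (8 * (r : ℝ) ^ 2 - (r + 1) * r) / q ≤
        ∑ v ∈ K.filter (fun v => ¬ β v = 0), ((β v : ℝ) - p v) / q := by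
      rw [← Finset.sum_div]
      refine div_le_div_of_nonneg_right ?_ hq0.le
      rw [Finset.sum_sub_distrib, h2]
      linarith
    have h5 : (1 / 2 + 2 * ((r : ℝ) - 1) / q) *
        ∑ v ∈ K.filter (fun v => β v = 0), 1 / (α v : ℝ) ≤
        (1 / 2 + 2 * ((r : ℝ) - 1) / q) * (2 + ((r : ℝ) - 1) / q) :=
      mul_le_mul_of_nonneg_left hrec (by linarith)
    have h6 : (1 / 2 + 2 * ((r : ℝ) - 1) / q) * (2 + ((r : ℝ) - 1) / q) ≤
        1 + (8 * (r : ℝ) ^ 2 - (r + 1) * r) / q := by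
      have h7 : 2 * ((r : ℝ) - 1) / q = 2 * (((r : ℝ) - 1) / q) := by ring
      have h8 : (8 * (r : ℝ) ^ 2 - (r + 1) * r) / q ≥ 5 * (((r : ℝ) - 1) / q) := by
        rw [← mul_div_assoc]
        refine div_le_div_of_nonneg_right ?_ hq0.le
        nlinarith
      have h9 : 0 ≤ ((r : ℝ) - 1) / q := div_nonneg (by linarith) hq0.le
      rw [h7]
      nlinarith
    linarith
  -- few free places
  have hE : q + 2 ≤ E := by
    have := F.hq
    omega
  by_cases hbad : ∃ v₁ ∈ K.filter (fun v => β v = 0), ∃ v₂ ∈ K.filter (fun v => β v = 0),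
      v₁ ≠ v₂ ∧ (∃ w ∈ K.erase v₁, E ≤ e v₁ + e w + 1) ∧ ∃ w ∈ K.erase v₂, E ≤ e v₂ + e w + 1
  · obtain ⟨v₁, h₁, v₂, h₂, h12, ⟨w₁, hw₁, f₁⟩, w₂, hw₂, f₂⟩ := hbad
    obtain ⟨k₁, g₁⟩ := inJ v₁ h₁
    obtain ⟨k₂, g₂⟩ := inJ v₂ h₂
    have hk1 := Finset.mem_of_mem_erase hw₁
    have hk2 := Finset.mem_of_mem_erase hw₂
    have a1 := F.he w₁ hk1
    have a2 := F.he w₂ hk2
    have a3 := F.he v₁ k₁
    have a4 := F.he v₂ k₂
    by_cases hw : w₁ = v₂
    · subst hw
      exact exc F hun0 hJ (fun v hv hb => out RL F hv hb) k₁ k₂ h12 (by omega) (by omega) (by omega)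
    · exfalso
      have m2 : v₂ ∈ K.erase v₁ := Finset.mem_erase.2 ⟨h12.symm, k₂⟩
      have s1 := er2 F k₁ m2
      have s2 : e w₁ ≤ ∑ u ∈ (K.erase v₁).erase v₂, e u :=
        Finset.single_le_sum (f := e) (fun _ _ => Nat.zero_le _) (Finset.mem_erase.2 ⟨hw, hw₁⟩)
      omega
  · push Not at hbad
    -- at most one exceptional vertex
    by_cases hb1 : ∃ v₁ ∈ K.filter (fun v => β v = 0), ∃ w ∈ K.erase v₁, E ≤ e v₁ + e w + 1
    · obtain ⟨v₁, h₁, w₁, hw₁, f₁⟩ := hb1
      have h3 : ∀ v ∈ (K.filter (fun v => β v = 0)).erase v₁,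
          p v / α v ≤ (1 / 3 + 1 / 32) * (1 / (α v : ℝ)) := by
        intro v hv
        rw [Finset.mem_erase] at hv
        have h4 := hbad v₁ h₁ v hv.2 (Ne.symm hv.1) ⟨w₁, hw₁, f₁⟩
        have h5 := pb RL F (inJ v hv.2).1 (inJ v hv.2).2 2 (fun w hw => by
          have := h4 w hw
          omega)
        rw [mul_one_div]
        refine div_le_div_of_nonneg_right ?_ (Nat.cast_nonneg _)
        norm_num at h5 heps ⊢
        linarith
      have h4 : p v₁ / α v₁ ≤ (1 / 3 + 1 / 32) * (1 / (α v₁ : ℝ)) + 1 / 6 := by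
        have h5 := ph v₁ h₁
        have h6 := αpos F (inJ v₁ h₁).1
        have h7 : 1 / (α v₁ : ℝ) ≤ 1 := by
          rw [div_le_one (by linarith)]
          exact h6
        have h8 : p v₁ / α v₁ ≤ (1 / 2 + 1 / 32) * (1 / (α v₁ : ℝ)) := by
          rw [mul_one_div]
          exact div_le_div_of_nonneg_right (by linarith) (Nat.cast_nonneg _)
        linarith
      have h5 : ∑ v ∈ K.filter (fun v => β v = 0), p v / α v ≤
          (1 / 3 + 1 / 32) * ∑ v ∈ K.filter (fun v => β v = 0), 1 / (α v : ℝ) + 1 / 6 := by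
        rw [← Finset.add_sum_erase _ _ h₁, ← Finset.add_sum_erase _ (fun v => 1 / (α v : ℝ)) h₁,
          mul_add, Finset.mul_sum]
        have h6 := Finset.sum_le_sum h3
        linarith
      linarith
    · push Not at hb1
      have h3 : ∀ v ∈ K.filter (fun v => β v = 0), p v ≤ 1 / 3 + 1 / 32 := by
        intro v hv
        have h4 := hb1 v hv
        have h5 := pb RL F (inJ v hv).1 (inJ v hv).2 2 (fun w hw => by
          have := h4 w hw
          omega)
        norm_num at h5 heps ⊢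
        linarith
      have h4 := sumJ F h3
      linarith

end Pool.Agent.N917.KR
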