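import Pool.Agent.N917.KR.Stm

/-!
Project KR (helper917), part P1 (helper371): weight of a clique with large deficit.
-/

set_option autoImplicit false

namespace Pool.Agent.N917.KR

open Finset
open Pool.Agent.Results.MP_76b19e_co.ForcedCliques (nn cnb cl mem_cl)

theorem t_P1 (hC : S_CRUDE) (hI : S_ID) : S_P1 := by
  intro V _ G _ q m X S hm hq hX hn hS hE
  obtain ⟨j, rfl⟩ : ∃ j, m = j + 1 := ⟨m - 1, by omega⟩
  rw [mem_cl] at hS
  obtain ⟨hSX, hSc⟩ := hS
  have hcard : S.card = j + 1 := hSc.2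
  rw [Nat.add_sub_cancel] at hX ⊢
  obtain ⟨e, he0⟩ : ∃ e : V → ℕ, e = fun v => q - nn G X v := ⟨_, rfl⟩
  have he : ∀ v ∈ S, nn G X v + e v = q := by
    intro v hv
    have := hn v (hSX hv)
    rw [he0]
    dsimp only
    omega
  obtain ⟨E, hE0⟩ : ∃ E : ℕ, E = ∑ v ∈ S, e v := ⟨_, rfl⟩
  have hes : es G q X S = E := by
    rw [hE0, he0]
    rfl
  rw [hes] at hE ⊢
  have hcr := (hC V G q j 1 e X S hcard le_rfl (by omega) (fun v hv => (he v hv).le)).2
  have hqR : (16 : ℝ) * ((j : ℝ) + 1) ^ 2 ≤ q := by exact_mod_cast hq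
  have hj0 : (0 : ℝ) ≤ j := Nat.cast_nonneg _
  have hEq : (E : ℝ) + 1 ≤ q := by exact_mod_cast hE
  have hE00 : (0 : ℝ) ≤ E := Nat.cast_nonneg _
  have hsum : ∀ w ∈ S, (∑ u ∈ S.erase w, (e u : ℝ)) = E - e w := by
    intro w hw
    have h1 := Finset.add_sum_erase S (fun u => (e u : ℝ)) hw
    rw [hE0]
    push_cast
    linarith
  have hnn : ∀ w, (0 : ℝ) ≤ ∑ u ∈ S.erase w, (e u : ℝ) := fun w =>
    Finset.sum_nonneg fun u _ => Nat.cast_nonneg _
  by_cases hc1 : E + (j + 1) ≤ q
  · refine hcr.trans ?_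
    have h1 : ∑ w ∈ S, 1 / (((1 : ℕ) : ℝ) + ∑ u ∈ S.erase w, (e u : ℝ)) ≤ ∑ w ∈ S, (1 : ℝ) := by
      refine Finset.sum_le_sum fun w _ => ?_
      rw [Nat.cast_one, div_le_one (by linarith [hnn w])]
      linarith [hnn w]
    refine h1.trans ?_
    rw [Finset.sum_const, hcard, nsmul_eq_mul, mul_one]
    have h2 : ((E + (j + 1) : ℕ) : ℝ) ≤ q := by exact_mod_cast hc1
    push_cast at h2 ⊢
    linarith
  have hc1' : (q : ℝ) < E + (j + 1) := by
    push Not at hc1
    exact_mod_cast hc1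
  have hne : S.Nonempty := Finset.card_pos.1 (by omega)
  obtain ⟨w0, hw0, hmax⟩ := Finset.exists_max_image S e hne
  have hsplit : ∑ w ∈ S, 1 / (((1 : ℕ) : ℝ) + ∑ u ∈ S.erase w, (e u : ℝ)) =
      1 / (1 + ((E : ℝ) - e w0)) +
        ∑ w ∈ S.erase w0, 1 / (((1 : ℕ) : ℝ) + ∑ u ∈ S.erase w, (e u : ℝ)) := by
    rw [← Finset.add_sum_erase S _ hw0, hsum w0 hw0, Nat.cast_one]
  have hEw0 : (0 : ℝ) ≤ E - e w0 := by
    rw [← hsum w0 hw0]
    exact hnn w0
  rw [hsplit] at hcr
  have hcarde : ((S.erase w0).card : ℝ) = j := by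
    rw [Finset.card_erase_of_mem hw0, hcard, Nat.add_sub_cancel]
  by_cases hA : e w0 + 1 ≤ E
  · -- all the others have a positive sum
    have hA' : (e w0 : ℝ) + 1 ≤ E := by exact_mod_cast hA
    have h1 : ∑ w ∈ S.erase w0, 1 / (((1 : ℕ) : ℝ) + ∑ u ∈ S.erase w, (e u : ℝ)) ≤
        ∑ w ∈ S.erase w0, (2 / (2 + (E : ℝ))) := by
      refine Finset.sum_le_sum fun w hw => ?_
      have hwS := Finset.mem_of_mem_erase hw
      have h2 : (e w : ℝ) + e w0 ≤ E := by
        have h3 : e w ≤ ∑ u ∈ S.erase w0, e u := Finset.single_le_sum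
          (fun u _ => Nat.zero_le _) hw
        have h4 := Finset.add_sum_erase S e hw0
        have h5 : e w + e w0 ≤ E := by omega
        exact_mod_cast h5
      have h6 : (e w : ℝ) ≤ e w0 := by exact_mod_cast hmax w hwS
      rw [hsum w hwS, Nat.cast_one, div_le_div_iff₀ (by linarith) (by linarith)]
      linarith
    rw [Finset.sum_const, nsmul_eq_mul, hcarde] at h1
    have h2 : 1 / (1 + ((E : ℝ) - e w0)) ≤ 1 / 2 := by
      apply one_div_le_one_div_of_le (by norm_num)
      linarith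
    have h3 : (j : ℝ) * (2 / (2 + (E : ℝ))) ≤ 1 / 2 := by
      rw [mul_div_assoc', div_le_div_iff₀ (by linarith) (by norm_num)]
      nlinarith
    linarith
  · have hA' : e w0 = E := by
      have h4 := Finset.add_sum_erase S e hw0
      omega
    have hother : ∀ w ∈ S.erase w0, e w = 0 := by
      have h4 := Finset.add_sum_erase S e hw0
      have h5 : ∑ u ∈ S.erase w0, e u = 0 := by omega
      intro w hw
      exact Finset.sum_eq_zero_iff.1 h5 w hw
    by_cases hB : E + 2 ≤ q
    · have hB' : (E : ℝ) + 2 ≤ q := by exact_mod_cast hB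
      have h1 : ∑ w ∈ S.erase w0, 1 / (((1 : ℕ) : ℝ) + ∑ u ∈ S.erase w, (e u : ℝ)) =
          ∑ w ∈ S.erase w0, (1 / (1 + (E : ℝ))) := by
        refine Finset.sum_congr rfl fun w hw => ?_
        rw [hsum w (Finset.mem_of_mem_erase hw), hother w hw]
        push_cast
        rw [sub_zero]
      rw [h1, Finset.sum_const, nsmul_eq_mul, hcarde, hA'] at hcr
      have h3 : (j : ℝ) * (1 / (1 + (E : ℝ))) ≤ 1 := by
        rw [mul_one_div, div_le_one (by linarith)]
        nlinarith
      rw [sub_self, add_zero, div_one] at hcr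
      linarith
    · have hqE : q = E + 1 := by omega
      have hq0 : 1 ≤ q := by omega
      have hq0R : (0 : ℝ) < q := by
        have : (1 : ℝ) ≤ q := by exact_mod_cast hq0
        linarith
      obtain ⟨b, hb⟩ : ∃ b : V → ℕ, b = fun v => if v = w0 then 1 else q := ⟨_, rfl⟩
      have hb0 : b w0 = 1 := by rw [hb]; simp
      have hb1 : ∀ w ∈ S.erase w0, b w = q := by
        intro w hw
        rw [hb]
        simp [Finset.ne_of_mem_erase hw]
      have hsb : ∑ v ∈ S, b v = j * q + 1 := by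
        rw [← Finset.add_sum_erase S _ hw0, hb0, Finset.sum_congr rfl hb1, Finset.sum_const,
          Finset.card_erase_of_mem hw0, hcard, Nat.add_sub_cancel, smul_eq_mul]
        ring
      have hid := hI V G (j + 1) b X S hcard
        (fun v hv => by
          have h1 := he v hv
          by_cases hv0 : v = w0
          · subst hv0
            rw [hb0]
            omega
          · rw [hb1 v (Finset.mem_erase.2 ⟨hv0, hv⟩)]
            omega)
        (by rw [hsb]; exact hX)
      have hpb : ∏ v ∈ S, 1 / (b v : ℝ) = 1 / (q : ℝ) ^ j := by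
        rw [← Finset.mul_prod_erase S _ hw0, hb0]
        rw [Finset.prod_congr rfl (fun w hw => by rw [hb1 w hw] :
          ∀ w ∈ S.erase w0, 1 / (b w : ℝ) = 1 / (q : ℝ))]
        rw [Finset.prod_const, Finset.card_erase_of_mem hw0, hcard, Nat.add_sub_cancel]
        simp
      rw [hpb] at hid
      have hqj : (0 : ℝ) < (q : ℝ) ^ j := pow_pos hq0R _
      have h5 : (q : ℝ) ^ j * Pool.Agent.N917.KR.gw G (j + 1) X S ≤ 1 := by
        calc _ ≤ (q : ℝ) ^ j * (1 / (q : ℝ) ^ j) := mul_le_mul_of_nonneg_left hid hqj.le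
          _ = 1 := by field_simp
      have h6 : (q : ℝ) - E = 1 := by
        rw [hqE]
        push_cast
        ring
      rw [h6]
      exact h5

end Pool.Agent.N917.KR
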