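import Pool.Agent.N917.KR.Stm

/-!
Project KR (helper917): the pure block.
-/

namespace Pool.Agent.N917.KR

open Finset
open Pool.Agent.Results.MP_76b19e_co.ForcedCliques

section

variable {V : Type} [DecidableEq V] (G : SimpleGraph V) [DecidableRel G.Adj]

theorem nn_pos {X : Finset V} {v : V} (hv : v ∈ X) : 1 ≤ nn G X v :=
  Finset.card_pos.2 ⟨v, by simp [hv]⟩

theorem nn_union {X Y : Finset V} (h : Disjoint X Y) (v : V) :
    nn G X v + nn G Y v = nn G (X ∪ Y) v := by
  have := nn_split G (W := X ∪ Y) (X := X) Finset.subset_union_left v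
  rw [Finset.union_sdiff_cancel_left h] at this
  exact this

theorem erase_cl {X K : Finset V} {j : ℕ} (hK : K ∈ cl G X (j + 1)) {v : V} (hv : v ∈ K) :
    K.erase v ∈ cl G X j := by
  rw [mem_cl] at hK ⊢
  refine ⟨(erase_subset _ _).trans hK.1, ?_⟩
  have := hK.2.erase_of_mem hv
  simpa using this

theorem es_erase {q : ℕ} {X K : Finset V} {v : V} (hv : v ∈ K) :
    es G q X (K.erase v) + (q - nn G X v) = es G q X K := by
  unfold es
  rw [add_comm]
  exact Finset.add_sum_erase K (fun v => q - nn G X v) hv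

theorem es_add {q : ℕ} {X K : Finset V} (hK : K ⊆ X) (hc : ∀ x ∈ X, nn G X x ≤ q) :
    es G q X K + ∑ v ∈ K, nn G X v = K.card * q := by
  unfold es
  rw [← Finset.sum_add_distrib, ← smul_eq_mul, ← Finset.sum_const]
  exact Finset.sum_congr rfl (fun v hv => Nat.sub_add_cancel (hc v (hK hv)))

/-- the local inequality -/
theorem local_ineq (hLAST : S_LAST) (hCRUDE : S_CRUDE) (hID : S_ID) (hBUD : S_BUD) (hYF : S_YF)
    (hP1 : S_P1) (hNUMP : S_NUMP) {q m : ℕ} {X Y : Finset V} (hm : 2 ≤ m)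
    (hq : 16 * m ^ 2 ≤ q) (hX : X.card = (m - 1) * q + 1) (hY : Y.card = q)
    (hc : ∀ x ∈ X, nn G X x + nn G Y x ≤ q) {K : Finset V} (hK : K ∈ cl G X (m + 1)) :
    ∑ v ∈ K, ((q : ℝ) ^ (m - 1) * gw G m X (K.erase v) - (cnb G Y (K.erase v)).card) /
      (cnb G X (K.erase v)).card ≤ 1 := by
  obtain ⟨hKX, hKc⟩ := (mem_cl G).1 hK
  have hcX : ∀ x ∈ X, nn G X x ≤ q := fun x hx => by have := hc x hx; omega
  have hcard : K.card = m + 1 := hKc.2
  obtain ⟨j, rfl⟩ : ∃ j, m = j + 1 := ⟨m - 1, by omega⟩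
  have hj : j + 1 - 1 = j := by omega
  obtain ⟨b1, b2, b3, b4⟩ := hBUD V G X K
  obtain ⟨y1, y2⟩ := hYF V G Y K
  have hsum := es_add G hKX hcX
  have hq1 : 1 ≤ q := by nlinarith
  have hle : ∀ v ∈ K, nn G Y v ≤ q - nn G X v := fun v hv => by
    have := hc v (hKX hv); omega
  have hYE : ∑ v ∈ K, nn G Y v ≤ es G q X K := Finset.sum_le_sum hle
  have hbound : ∀ v ∈ K, (q : ℝ) ^ j * gw G (j + 1) X (K.erase v) ≤
      ∑ w ∈ K.erase v, 1 / ((1 : ℝ) + ∑ u ∈ (K.erase v).erase w, ((q - nn G X u : ℕ) : ℝ)) ∧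
      0 ≤ (q : ℝ) ^ j * gw G (j + 1) X (K.erase v) := by
    intro v hv
    have := hCRUDE V G q j 1 (fun v => q - nn G X v) X (K.erase v)
      (by rw [card_erase_of_mem hv, hcard]; omega) le_rfl (by rw [hX, hj]; omega)
      (fun u hu => by
        have := hcX u (hKX (mem_of_mem_erase hu)); omega)
    refine ⟨by simpa using this.2, by have := this.1; positivity⟩
  refine hNUMP V K q (j + 1) (es G q X K) (cnb G X K).card (fun v => q - nn G X v)
    (fun v => (cnb G X (K.erase v)).card) (fun v => (cnb G Y (K.erase v)).card)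
    (fun v => (q : ℝ) ^ (j + 1 - 1) * gw G (j + 1) X (K.erase v)) ?_
  constructor
  · exact hm
  · exact hq
  · exact hcard
  · rfl
  · intro v hv
    have := nn_pos G (hKX hv)
    have := hcX v (hKX hv)
    show q - nn G X v + 1 ≤ q
    omega
  · intro v hv
    rw [hj]
    exact (hbound v hv).2
  · intro v hv
    rw [hj]
    exact (hbound v hv).1
  · intro v hv h
    have he := es_erase G (q := q) (X := X) hv
    have := hP1 V G q (j + 1) X (K.erase v) (by omega) hq (by rw [hX]) hcX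
      (erase_cl G hK hv) (by omega)
    have hcast : ((es G q X (K.erase v) : ℕ) : ℝ) + ((q - nn G X v : ℕ) : ℝ) =
        (es G q X K : ℝ) := by exact_mod_cast he
    linarith
  · intro v hv
    have := b4 (by rw [hcard]; exact hK) v hv
    exact this
  · intro v hv
    have h1 := b3 v hv
    have h2 := hcX v (hKX hv)
    show (cnb G X (K.erase v)).card + (q - nn G X v) ≤ (cnb G X K).card + q
    omega
  · rw [hcard] at b1 hsum
    rw [hX] at b1
    omega
  · intro v hv
    have h1 := y1 v hv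
    have h2 : ∑ w ∈ K.erase v, nn G Y w ≤ es G q X (K.erase v) :=
      Finset.sum_le_sum (fun w hw => hle w (mem_of_mem_erase hw))
    have he := es_erase G (q := q) (X := X) hv
    omega
  · intro h
    have := (y2 h).1
    omega
  · intro h
    have h1 := (y2 h).2.1
    set J := K.filter (fun v => (cnb G Y (K.erase v)).card = 0) with hJ
    have h2 : ∀ (T : Finset V), T ⊆ K → ∑ v ∈ T, (q - nn G X v - nn G Y v) +
        ∑ v ∈ T, nn G Y v = ∑ v ∈ T, (q - nn G X v) := by
      intro T hT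
      rw [← Finset.sum_add_distrib]
      refine Finset.sum_congr rfl (fun v hv => ?_)
      have := hle v (hT hv)
      omega
    have h3 := h2 J (Finset.filter_subset _ _)
    have h4 := h2 K (Finset.Subset.refl _)
    have h5 : ∑ v ∈ J, (q - nn G X v - nn G Y v) ≤ ∑ v ∈ K, (q - nn G X v - nn G Y v) :=
      Finset.sum_le_sum_of_subset (Finset.filter_subset _ _)
    have h6 : es G q X K = ∑ v ∈ K, (q - nn G X v) := rfl
    show 2 * q + ∑ v ∈ J, (q - nn G X v) ≤ 2 * es G q X K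
    omega
  · intro h w hw h0
    have h1 := hle w hw
    exact (y2 h).2.2 w hw (by omega)
  · intro hE
    have hl := hLAST V G (j + 1) X K hcard
    have e1 : ∑ v ∈ K, (q : ℝ) ^ (j + 1 - 1) * gw G (j + 1) X (K.erase v) /
        ((cnb G X (K.erase v)).card : ℝ) = (q : ℝ) ^ (j + 1 - 1) * gw G (j + 1 + 1) X K := by
      rw [hl, Finset.mul_sum]
      exact Finset.sum_congr rfl (fun v _ => by ring)
    rw [e1]
    have h1 : ∑ v ∈ K, nn G X v ≤ X.card := by
      rw [hcard] at hsum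
      rw [hX, hj]
      have : (j + 1 + 1) * q = j * q + 2 * q := by ring
      omega
    have h2 := hID V G (j + 1 + 1) (fun v => nn G X v) X K hcard
      (fun v hv => ⟨le_rfl, nn_pos G (hKX hv)⟩) h1
    have h3 : ∏ v ∈ K, 1 / ((nn G X v : ℕ) : ℝ) = 1 / ∏ v ∈ K, ((q : ℝ) - ((q - nn G X v : ℕ) : ℝ)) := by
      rw [Finset.prod_div_distrib, Finset.prod_const_one]
      congr 1
      refine Finset.prod_congr rfl (fun v hv => ?_)
      rw [Nat.cast_sub (hcX v (hKX hv))]
      ring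
    rw [h3] at h2
    calc (q : ℝ) ^ (j + 1 - 1) * gw G (j + 1 + 1) X K ≤ (q : ℝ) ^ (j + 1 - 1) *
        (1 / ∏ v ∈ K, ((q : ℝ) - ((q - nn G X v : ℕ) : ℝ))) :=
          mul_le_mul_of_nonneg_left h2 (by positivity)
      _ = _ := by ring

/-- the pure block -/
theorem pure (hSUM : S_SUM) (hLAST : S_LAST) (hCRUDE : S_CRUDE) (hID : S_ID) (hMOVE : S_MOVE)
    (hBUD : S_BUD) (hYF : S_YF) (hCNT : S_CNT) (hP1 : S_P1) (hNUMP : S_NUMP)
    {q m : ℕ} {W X : Finset V} (hm : 2 ≤ m) (hq : 16 * m ^ 2 ≤ q) (hXW : X ⊆ W)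
    (hX : X.card = (m - 1) * q + 1) (hcW : ∀ x ∈ X, nn G W x ≤ q) (hW : m * q + 1 ≤ W.card) :
    q ^ (m - 1) ≤ (cl G W (m + 1)).card := by
  have hmq : m * q = (m - 1) * q + q := by
    obtain ⟨j, rfl⟩ : ∃ j, m = j + 1 := ⟨m - 1, by omega⟩
    rw [Nat.add_sub_cancel]; ring
  obtain ⟨Y, hYs, hY⟩ := Finset.exists_subset_card_eq (s := W \ X) (n := q) (by
    rw [Finset.card_sdiff_of_subset hXW]; omega)
  have hXY : Disjoint X Y := by
    refine Finset.disjoint_of_subset_right hYs Finset.disjoint_sdiff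
  have hsub : X ∪ Y ⊆ W := Finset.union_subset hXW (hYs.trans Finset.sdiff_subset)
  have hc : ∀ x ∈ X, nn G X x + nn G Y x ≤ q := by
    intro x hx
    rw [nn_union G hXY]
    exact (nn_mono G hsub x).trans (hcW x hx)
  have hcX : ∀ x ∈ X, nn G X x ≤ q := fun x hx => by have := hc x hx; omega
  have hmono : (cl G (X ∪ Y) (m + 1)).card ≤ (cl G W (m + 1)).card := by
    apply Finset.card_le_card
    intro K hK
    rw [mem_cl] at hK ⊢
    exact ⟨hK.1.trans hsub, hK.2⟩
  have hsum := hSUM V G q m X (by rw [hX]) hcX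
  set F : Finset V → ℝ := fun S => (q : ℝ) ^ (m - 1) * gw G m X S - (cnb G Y S).card with hF
  have h1 : ∑ S ∈ cl G X m, F S =
      (q : ℝ) ^ (m - 1) - ∑ S ∈ cl G X m, ((cnb G Y S).card : ℝ) := by
    rw [hF, Finset.sum_sub_distrib, ← Finset.mul_sum, hsum, mul_one]
  have h2 : ∑ S ∈ cl G X m, F S =
      ∑ S ∈ (cl G X m).filter (fun S => (cnb G X S).card ≠ 0), F S +
      ∑ S ∈ (cl G X m).filter (fun S => ¬ (cnb G X S).card ≠ 0), F S :=
    (Finset.sum_filter_add_sum_filter_not _ _ _).symm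
  have h3 : ∑ S ∈ (cl G X m).filter (fun S => ¬ (cnb G X S).card ≠ 0), F S ≤ 0 := by
    apply Finset.sum_nonpos
    intro S hS
    rw [Finset.mem_filter, not_not] at hS
    obtain ⟨hSX, hSc⟩ := (mem_cl G).1 hS.1
    have hb := (hBUD V G X S).2.1
    have hes := es_add G hSX hcX
    rw [hSc.2] at hes
    have hes1 : es G q X S + 1 ≤ q := by omega
    have hp := hP1 V G q m X S (by omega) hq (by rw [hX]) hcX hS.1 hes1
    have hy1 := card_cnb_add_miss G Y S
    have hy2 := card_miss_le G Y S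
    have hy3 : ∑ v ∈ S, nn G Y v ≤ es G q X S := Finset.sum_le_sum (fun v hv => by
      have := hc v (hSX hv); omega)
    have hy4 : q ≤ (cnb G Y S).card + es G q X S := by omega
    have hy5 : (q : ℝ) ≤ (cnb G Y S).card + es G q X S := by exact_mod_cast hy4
    rw [hF]
    simp only
    linarith
  have h4 : ∑ S ∈ (cl G X m).filter (fun S => (cnb G X S).card ≠ 0), F S ≤
      ((cl G X (m + 1)).card : ℝ) := by
    rw [hMOVE V G m X (fun S => (cnb G X S).card ≠ 0) F (fun S _ h => h)]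
    calc ∑ K ∈ cl G X (m + 1), ∑ x ∈ K.filter (fun x => (cnb G X (K.erase x)).card ≠ 0),
          F (K.erase x) / (cnb G X (K.erase x)).card
        ≤ ∑ K ∈ cl G X (m + 1), (1 : ℝ) := by
          refine Finset.sum_le_sum (fun K hK => ?_)
          have hfil : K.filter (fun x => (cnb G X (K.erase x)).card ≠ 0) = K := by
            apply Finset.filter_true_of_mem
            intro x hx
            obtain ⟨hKX, hKc⟩ := (mem_cl G).1 hK
            have := (hBUD V G X K).2.2.2 (by rw [hKc.2]; exact hK) x hx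
            omega
          rw [hfil]
          exact local_ineq G hLAST hCRUDE hID hBUD hYF hP1 hNUMP hm hq hX hY hc hK
      _ = ((cl G X (m + 1)).card : ℝ) := by simp
  have h5 := hCNT V G m X Y hXY
  have h6 : (∑ S ∈ cl G X m, ((cnb G Y S).card : ℝ)) + ((cl G X (m + 1)).card : ℝ) ≤
      ((cl G (X ∪ Y) (m + 1)).card : ℝ) := by exact_mod_cast h5
  have h7 : ((q ^ (m - 1) : ℕ) : ℝ) ≤ ((cl G (X ∪ Y) (m + 1)).card : ℝ) := by
    push_cast
    linarith
  exact (by exact_mod_cast h7 : q ^ (m - 1) ≤ (cl G (X ∪ Y) (m + 1)).card).trans hmono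

end

end Pool.Agent.N917.KR
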