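import Pool.Agent.N917.KR.Stm

/-!
# KR/RL (helper335): a real inequality
-/

set_option autoImplicit false

namespace Pool.Agent.N917.KR

open Finset

theorem t_RL : S_RL := by
  intro V _ q d e S hq hS hE hd
  obtain ⟨w0, hw0, hmax⟩ := Finset.exists_max_image S e hS
  have hq0 : (0 : ℝ) < q := by exact_mod_cast hq
  rw [← Finset.add_sum_erase S _ hw0]
  have h1 : (1 : ℝ) / (1 + ∑ u ∈ S.erase w0, (e u : ℝ)) ≤ 1 / (1 + (d : ℝ)) := by
    apply one_div_le_one_div_of_le (by positivity)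
    have h2 : (d : ℝ) ≤ ∑ u ∈ S.erase w0, (e u : ℝ) := by exact_mod_cast hd w0 hw0
    linarith
  have h3 : ∀ w ∈ S.erase w0, (1 : ℝ) / (1 + ∑ u ∈ S.erase w, (e u : ℝ)) ≤ 2 / q := by
    intro w hw
    obtain ⟨hne, hwS⟩ := Finset.mem_erase.1 hw
    have h4 : e w ≤ e w0 := hmax w hwS
    have h5 : e w + ∑ u ∈ S.erase w, e u = ∑ u ∈ S, e u := Finset.add_sum_erase S e hwS
    have h6 : e w0 ≤ ∑ u ∈ S.erase w, e u :=
      Finset.single_le_sum (f := e) (fun _ _ => Nat.zero_le _)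
        (Finset.mem_erase.2 ⟨Ne.symm hne, hw0⟩)
    have h7 : q ≤ 2 * ∑ u ∈ S.erase w, e u := by omega
    have h8 : (q : ℝ) ≤ 2 * ∑ u ∈ S.erase w, (e u : ℝ) := by exact_mod_cast h7
    have h9 : (0 : ℝ) < 1 + ∑ u ∈ S.erase w, (e u : ℝ) := by positivity
    rw [div_le_div_iff₀ h9 hq0]
    linarith
  have h10 : ∑ w ∈ S.erase w0, (1 : ℝ) / (1 + ∑ u ∈ S.erase w, (e u : ℝ)) ≤
      ((S.erase w0).card : ℝ) * (2 / q) := by
    have h11 := Finset.sum_le_card_nsmul (S.erase w0) _ (2 / (q : ℝ)) h3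
    rwa [nsmul_eq_mul] at h11
  have h12 : ((S.erase w0).card : ℝ) = (S.card : ℝ) - 1 := by
    rw [Finset.card_erase_of_mem hw0, Nat.cast_sub (Finset.card_pos.2 hS), Nat.cast_one]
  rw [h12] at h10
  have h13 : ((S.card : ℝ) - 1) * (2 / q) = 2 * ((S.card : ℝ) - 1) / q := by ring
  rw [h13] at h10
  linarith

end Pool.Agent.N917.KR
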