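import Pool.Agent.N917.KR.Stm

/-!
Project KR (helper917), part SUM: the weights add up to 1. By helper488.
-/

namespace Pool.Agent.N917.KR

open Finset
open Pool.Agent.Results.MP_76b19e_co.ForcedCliques

namespace SUM

variable {V : Type} [DecidableEq V] (G : SimpleGraph V) [DecidableRel G.Adj]

theorem card_cnb1 (X : Finset V) (a : V) : (cnb G X {a}).card + nn G X a = X.card := by
  have h1 := card_nb G X a
  have h2 : cnb G X {a} = X.filter (fun w => G.Adj a w) := by
    ext w; simp [cnb]
  rw [h2]
  exact h1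

/-- the sum over cliques and their vertices -/
theorem swap (X : Finset V) (m : ℕ) (w : V → Finset V → ℝ) :
    ∑ S ∈ cl G X (m + 1), ∑ v ∈ S, w v (S.erase v) =
      ∑ v ∈ X, ∑ S ∈ cl G (cnb G X {v}) m, w v S := by
  rw [Finset.sum_sigma', Finset.sum_sigma']
  refine Finset.sum_bij' (fun p _ => ⟨p.2, p.1.erase p.2⟩) (fun p _ => ⟨insert p.1 p.2, p.1⟩)
    ?_ ?_ ?_ ?_ ?_
  · rintro ⟨S, v⟩ h
    simp only [mem_sigma, mem_cl] at h ⊢
    obtain ⟨⟨hS, hc⟩, hv⟩ := h
    refine ⟨hS hv, ?_, ?_⟩
    · intro x hx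
      rw [mem_erase] at hx
      rw [mem_cnb]
      refine ⟨hS hx.2, ?_⟩
      intro s hs
      rw [mem_singleton] at hs
      rw [hs]
      exact hc.1 hv hx.2 (Ne.symm hx.1)
    · have := hc.erase_of_mem hv
      simpa using this
  · rintro ⟨v, S⟩ h
    simp only [mem_sigma, mem_cl] at h ⊢
    obtain ⟨hv, hS, hc⟩ := h
    refine ⟨⟨?_, ?_⟩, mem_insert_self v S⟩
    · intro x hx
      rw [mem_insert] at hx
      rcases hx with rfl | hx
      · exact hv
      · exact ((mem_cnb G).1 (hS hx)).1
    · exact hc.insert fun b hb => ((mem_cnb G).1 (hS hb)).2 v (mem_singleton_self v)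
  · rintro ⟨S, v⟩ h
    simp only [mem_sigma, mem_cl] at h
    simp only [insert_erase h.2]
  · rintro ⟨v, S⟩ h
    simp only [mem_sigma, mem_cl] at h
    obtain ⟨hv, hS, hc⟩ := h
    have : v ∉ S := by
      intro hvS
      exact G.loopless.irrefl v (((mem_cnb G).1 (hS hvS)).2 v (mem_singleton_self v))
    simp only [erase_insert this]
  · rintro ⟨S, v⟩ h
    rfl

theorem main (q : ℕ) : ∀ (m : ℕ) (X : Finset V), (m = 0 ∨ (m - 1) * q + 1 ≤ X.card) →
    (∀ x ∈ X, nn G X x ≤ q) → ∑ S ∈ cl G X m, gw G m X S = 1 := by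
  intro m
  induction m with
  | zero =>
    intro X _ _
    have : cl G X 0 = {∅} := by
      ext K
      rw [mem_cl, SimpleGraph.isNClique_zero, mem_singleton]
      constructor
      · exact fun h => h.2
      · rintro rfl
        exact ⟨empty_subset _, rfl⟩
    rw [this, sum_singleton, gw]
  | succ m ih =>
    intro X hX hn
    have hX' : m * q + 1 ≤ X.card := by
      rcases hX with h | h
      · omega
      · simpa using h
    have h0 : (X.card : ℝ) ≠ 0 := by
      have : X.card ≠ 0 := by omega
      exact_mod_cast this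
    have e1 : ∑ S ∈ cl G X (m + 1), gw G (m + 1) X S =
        (∑ S ∈ cl G X (m + 1), ∑ v ∈ S, gw G m (cnb G X {v}) (S.erase v)) / X.card := by
      rw [sum_div]
      rfl
    have e2 : ∀ v ∈ X, ∑ S ∈ cl G (cnb G X {v}) m, gw G m (cnb G X {v}) S = 1 := by
      intro v hv
      refine ih _ ?_ ?_
      · rcases Nat.eq_zero_or_pos m with h | h
        · exact Or.inl h
        · right
          have h1 := card_cnb1 G X v
          have h2 := hn v hv
          have h3 : m * q = (m - 1) * q + q := by
            obtain ⟨k, rfl⟩ : ∃ k, m = k + 1 := ⟨m - 1, by omega⟩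
            simp only [Nat.add_sub_cancel]
            ring
          omega
      · intro x hx
        exact (nn_mono G (filter_subset _ _) x).trans (hn x ((mem_cnb G).1 hx).1)
    rw [e1, swap G X m fun v S => gw G m (cnb G X {v}) S, sum_congr rfl e2, sum_const,
      nsmul_eq_mul, mul_one, div_self h0]

end SUM

theorem t_SUM : S_SUM := by
  intro V _ G _ q m X hX hn
  exact SUM.main G q m X (Or.inr hX) hn

end Pool.Agent.N917.KR
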