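import Pool.Agent.Results.MP_76b19e_co.ForcedCliques

/-!
Project KR (helper917): exact minimum number of copies of `K_{r+1}` for all `r`, large `D = n - k`
and `n = r D + 1 + s (s + 1) / 2` (MP_76b19e_co).  Statements of the parts.
-/

namespace Pool.Agent.N917.KR

open Finset
open Pool.Agent.Results.MP_76b19e_co.ForcedCliques (nn cnb cl Admissible minCliques)

section defs

variable {V : Type} [DecidableEq V]

/-- probability that the random greedy procedure inside `X` picks the `j`-set `S` -/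
noncomputable def gw (G : SimpleGraph V) [DecidableRel G.Adj] :
    ℕ → Finset V → Finset V → ℝ
  | 0, _, _ => 1
  | j + 1, X, S => (∑ v ∈ S, gw G j (cnb G X {v}) (S.erase v)) / X.card

/-- the sum of `q - nn v` over `S` -/
def es (G : SimpleGraph V) [DecidableRel G.Adj] (q : ℕ) (X S : Finset V) : ℕ :=
  ∑ v ∈ S, (q - nn G X v)

/-- the flow of weight at level `κ` -/
noncomputable def fl (G : SimpleGraph V) [DecidableRel G.Adj] (q m : ℕ) (τ : ℕ → ℕ)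
    (X : Finset V) : ℕ → Finset V → ℝ
  | 0, S => (q : ℝ) ^ (m - 1) * gw G m X S
  | κ + 1, R => ∑ v ∈ R.filter (fun v => q + ∑ i ∈ range κ, τ i ≤ es G q X (R.erase v)),
      fl G q m τ X κ (R.erase v) / (cnb G X (R.erase v)).card

end defs

/-! ### The weights -/

def S_SUM : Prop := ∀ (V : Type) [DecidableEq V] (G : SimpleGraph V) [DecidableRel G.Adj]
  (q m : ℕ) (X : Finset V), (m - 1) * q + 1 ≤ X.card → (∀ x ∈ X, nn G X x ≤ q) →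
  ∑ S ∈ cl G X m, gw G m X S = 1

def S_LAST : Prop := ∀ (V : Type) [DecidableEq V] (G : SimpleGraph V) [DecidableRel G.Adj]
  (j : ℕ) (X K : Finset V), K.card = j + 1 →
  gw G (j + 1) X K = ∑ v ∈ K, gw G j X (K.erase v) / (cnb G X (K.erase v)).card

def S_CRUDE : Prop := ∀ (V : Type) [DecidableEq V] (G : SimpleGraph V) [DecidableRel G.Adj]
  (q j c : ℕ) (e : V → ℕ) (X S : Finset V), S.card = j + 1 → 1 ≤ c → c + j * q ≤ X.card →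
  (∀ v ∈ S, nn G X v + e v ≤ q) →
  0 ≤ gw G (j + 1) X S ∧
  (q : ℝ) ^ j * gw G (j + 1) X S ≤ ∑ w ∈ S, 1 / ((c : ℝ) + ∑ u ∈ S.erase w, (e u : ℝ))

def S_ID : Prop := ∀ (V : Type) [DecidableEq V] (G : SimpleGraph V) [DecidableRel G.Adj]
  (j : ℕ) (b : V → ℕ) (X S : Finset V), S.card = j → (∀ v ∈ S, nn G X v ≤ b v ∧ 1 ≤ b v) →
  ∑ v ∈ S, b v ≤ X.card → gw G j X S ≤ ∏ v ∈ S, 1 / (b v : ℝ)

def S_MOVE : Prop := ∀ (V : Type) [DecidableEq V] (G : SimpleGraph V) [DecidableRel G.Adj]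
  (j : ℕ) (X : Finset V) (P : Finset V → Prop) [DecidablePred P] (F : Finset V → ℝ),
  (∀ S ∈ cl G X j, P S → (cnb G X S).card ≠ 0) →
  ∑ S ∈ (cl G X j).filter P, F S =
    ∑ K ∈ cl G X (j + 1), ∑ x ∈ K.filter (fun x => P (K.erase x)),
      F (K.erase x) / (cnb G X (K.erase x)).card

/-! ### Counting -/

def S_BUD : Prop := ∀ (V : Type) [DecidableEq V] (G : SimpleGraph V) [DecidableRel G.Adj]
  (X R : Finset V),
  (2 * X.card + R.card * (cnb G X R).card ≤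
    ∑ v ∈ R, nn G X v + ∑ v ∈ R, (cnb G X (R.erase v)).card + 2 * (cnb G X R).card) ∧
  (X.card ≤ (cnb G X R).card + ∑ v ∈ R, nn G X v) ∧
  (∀ v ∈ R, (cnb G X (R.erase v)).card ≤ (cnb G X R).card + nn G X v) ∧
  (R ∈ cl G X R.card → ∀ v ∈ R, (cnb G X R).card + 1 ≤ (cnb G X (R.erase v)).card)

def S_YF : Prop := ∀ (V : Type) [DecidableEq V] (G : SimpleGraph V) [DecidableRel G.Adj]
  (Y K : Finset V),
  (∀ v ∈ K, Y.card ≤ (cnb G Y (K.erase v)).card + ∑ w ∈ K.erase v, nn G Y w) ∧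
  ((∃ v ∈ K, (cnb G Y (K.erase v)).card = 0) →
    2 * Y.card ≤ ∑ v ∈ K, nn G Y v + ∑ v ∈ K, (cnb G Y (K.erase v)).card ∧
    2 * Y.card + ∑ v ∈ K.filter (fun v => (cnb G Y (K.erase v)).card = 0), nn G Y v ≤
      2 * ∑ v ∈ K, nn G Y v ∧
    ∀ w ∈ K, nn G Y w = 0 → (cnb G Y (K.erase w)).card = 0)

def S_CNT : Prop := ∀ (V : Type) [DecidableEq V] (G : SimpleGraph V) [DecidableRel G.Adj]
  (j : ℕ) (X Y : Finset V), Disjoint X Y →
  ∑ S ∈ cl G X j, (cnb G Y S).card + (cl G X (j + 1)).card ≤ (cl G (X ∪ Y) (j + 1)).card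

/-! ### Bounds for the weights -/

/-- a real inequality -/
def S_RL : Prop := ∀ (V : Type) [DecidableEq V] (q d : ℕ) (e : V → ℕ) (S : Finset V),
  1 ≤ q → S.Nonempty → q ≤ ∑ u ∈ S, e u → (∀ w ∈ S, d ≤ ∑ u ∈ S.erase w, e u) →
  ∑ w ∈ S, 1 / ((1 : ℝ) + ∑ u ∈ S.erase w, (e u : ℝ)) ≤
    1 / (1 + (d : ℝ)) + 2 * ((S.card : ℝ) - 1) / q

def S_P1 : Prop := ∀ (V : Type) [DecidableEq V] (G : SimpleGraph V) [DecidableRel G.Adj]
  (q m : ℕ) (X S : Finset V), 1 ≤ m → 16 * m ^ 2 ≤ q → (m - 1) * q + 1 ≤ X.card →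
  (∀ x ∈ X, nn G X x ≤ q) → S ∈ cl G X m → es G q X S + 1 ≤ q →
  (q : ℝ) ^ (m - 1) * gw G m X S ≤ (q : ℝ) - es G q X S

/-! ### The local inequality of the pure block -/

structure FactP {V : Type} [DecidableEq V] (K : Finset V) (q r E un : ℕ) (e α β : V → ℕ)
    (p : V → ℝ) : Prop where
  hr : 2 ≤ r
  hq : 16 * r ^ 2 ≤ q
  hK : K.card = r + 1
  hE : E = ∑ v ∈ K, e v
  he : ∀ v ∈ K, e v + 1 ≤ q
  hp0 : ∀ v ∈ K, 0 ≤ p v
  hp : ∀ v ∈ K, p v ≤ ∑ w ∈ K.erase v, 1 / ((1 : ℝ) + ∑ u ∈ (K.erase v).erase w, (e u : ℝ))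
  hp1 : ∀ v ∈ K, E + 1 ≤ q + e v → p v ≤ (q : ℝ) + e v - E
  hα : ∀ v ∈ K, un + 1 ≤ α v
  hα2 : ∀ v ∈ K, α v + e v ≤ un + q
  bud : 2 * ((r - 1) * q + 1) + (r + 1) * un + E ≤ (r + 1) * q + ∑ v ∈ K, α v + 2 * un
  hβ : ∀ v ∈ K, q + e v ≤ E + β v
  y3 : (∃ v ∈ K, β v = 0) → 2 * q ≤ E + ∑ v ∈ K, β v
  y4 : (∃ v ∈ K, β v = 0) → 2 * q + ∑ v ∈ K.filter (fun v => β v = 0), e v ≤ 2 * E
  y5 : (∃ v ∈ K, β v = 0) → ∀ w ∈ K, e w = 0 → β w = 0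
  id : E + 1 = 2 * q → ∑ v ∈ K, p v / α v ≤ (q : ℝ) ^ (r - 1) / ∏ v ∈ K, ((q : ℝ) - e v)

def S_NUMP : Prop := ∀ (V : Type) [DecidableEq V] (K : Finset V) (q r E un : ℕ)
  (e α β : V → ℕ) (p : V → ℝ), FactP K q r E un e α β p →
  ∑ v ∈ K, (p v - β v) / α v ≤ 1

/-! ### The tail -/

/-- hypotheses for a first block of length `m` and a strictly increasing tail of length `l` -/
structure Blk {V : Type} [DecidableEq V] (G : SimpleGraph V) [DecidableRel G.Adj]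
    (W X : Finset V) (q m l : ℕ) (τ : ℕ → ℕ) : Prop where
  hm : 2 ≤ m
  hq : 16 * (m + l) ^ 2 ≤ q
  hXW : X ⊆ W
  hX : X.card = (m - 1) * q + 1
  hc : ∀ x ∈ X, nn G W x ≤ q
  hτ : ∀ j < l, q + 1 + j ≤ τ j
  hY : ∀ j < l, m * q + ∑ i ∈ range j, τ i + 1 ≤ (W.filter (fun v => nn G W v ≤ τ j)).card
  hW : m * q + ∑ i ∈ range l, τ i + 1 ≤ W.card

/-- number of cliques with a given trace on `X` -/
def S_TR : Prop := ∀ (V : Type) [DecidableEq V] (G : SimpleGraph V) [DecidableRel G.Adj]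
  (W X : Finset V) (q m l κ : ℕ) (τ : ℕ → ℕ), Blk G W X q m l τ → κ ≤ l →
  ∀ R ∈ cl G X (m + κ), es G q X R + 1 ≤ q + ∑ i ∈ range κ, τ i →
  q + ∑ i ∈ range κ, τ i ≤
    es G q X R + ((cl G W (m + l + 1)).filter (fun K => K ∩ X = R)).card

def S_FL1 : Prop := ∀ (V : Type) [DecidableEq V] (G : SimpleGraph V) [DecidableRel G.Adj]
  (W X : Finset V) (q m l : ℕ) (τ : ℕ → ℕ), Blk G W X q m l τ → 1 ≤ l →
  ∀ R ∈ cl G X (m + 1),
    fl G q m τ X 1 R ≤ 2 ∧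
    (2 * q ≤ es G q X R → fl G q m τ X 1 R ≤ 1) ∧
    (q + τ 0 ≤ es G q X R → fl G q m τ X 1 R ≤ 1 / 5)

def S_FL2 : Prop := ∀ (V : Type) [DecidableEq V] (G : SimpleGraph V) [DecidableRel G.Adj]
  (W X : Finset V) (q m l : ℕ) (τ : ℕ → ℕ), Blk G W X q m l τ →
  (∀ R ∈ cl G X (m + 1), q + τ 0 ≤ es G q X R → fl G q m τ X 1 R ≤ 1 / 5) →
  ∀ κ, 2 ≤ κ → κ ≤ l + 1 → ∀ R ∈ cl G X (m + κ), fl G q m τ X κ R ≤ 1

/-- the block theorem -/
def S_BLK : Prop := ∀ (V : Type) [DecidableEq V] (G : SimpleGraph V) [DecidableRel G.Adj]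
  (W X : Finset V) (q m l : ℕ) (τ : ℕ → ℕ), Blk G W X q m l τ →
  q ^ (m - 1) ≤ (cl G W (m + l + 1)).card

/-- the final statement -/
def S_FIN : Prop := ∀ n k r : ℕ, 2 ≤ r → k < n → 16 * r ^ 2 ≤ n - k → ∀ s : ℕ, s ≤ r - 1 →
  2 * n = 2 * (r * (n - k) + 1) + s * (s + 1) → (s ≤ 1 ∨ (r + 1).factorial ≤ n - k) →
  minCliques n k r = (n - k) ^ (r - 1 - s)

end Pool.Agent.N917.KR
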