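import Pool.Agent.N917.KR.Stm

/-!
Project KR (helper917), part TR: the number of cliques with a given trace. By helper488.
-/

namespace Pool.Agent.N917.KR

open Finset
open Pool.Agent.Results.MP_76b19e_co.ForcedCliques

namespace TR

variable {V : Type} [DecidableEq V] (G : SimpleGraph V) [DecidableRel G.Adj]

/-- cliques in the common neighbourhood outside of `X` give cliques with trace `R` -/
theorem inj {W X R : Finset V} {i j : ℕ} (hXW : X ⊆ W) (hRX : R ⊆ X) (hR : G.IsNClique i R) :
    (cl G (cnb G (W \ X) R) j).card ≤ ((cl G W (i + j)).filter (fun K => K ∩ X = R)).card := by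
  have hd : ∀ K ∈ cl G (cnb G (W \ X) R) j, K ⊆ W \ X := fun K hK =>
    ((mem_cl G).1 hK).1.trans (filter_subset _ _)
  apply Finset.card_le_card_of_injOn (fun K => R ∪ K)
  · intro K hK
    have h1 := union_clique G hR hK
    have h2 := hd K hK
    simp only [Finset.coe_filter, Set.mem_ofPred_eq]
    refine ⟨(mem_cl G).2 ⟨?_, h1.2⟩, ?_⟩
    · exact Finset.union_subset (hRX.trans hXW) (h2.trans sdiff_subset)
    · rw [union_inter_distrib_right, inter_eq_left.2 hRX]
      have : K ∩ X = ∅ := by
        rw [← disjoint_iff_inter_eq_empty]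
        exact disjoint_of_subset_left h2 sdiff_disjoint
      rw [this, union_empty]
  · intro K hK K' hK' h
    have h1 := (union_clique G hR hK).1
    have h2 := (union_clique G hR hK').1
    simp only at h
    have e1 : (R ∪ K) \ R = K := by
      rw [Finset.union_sdiff_left]
      exact Finset.sdiff_eq_self_of_disjoint h1.symm
    have e2 : (R ∪ K') \ R = K' := by
      rw [Finset.union_sdiff_left]
      exact Finset.sdiff_eq_self_of_disjoint h2.symm
    rw [← e1, ← e2, h]

end TR

theorem t_TR : S_TR := by
  intro V _ G _ W X q m l κ τ H hκ R hR hes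
  rw [mem_cl] at hR
  obtain ⟨hRX, hRc⟩ := hR
  obtain ⟨l', rfl⟩ : ∃ l', l = κ + l' := ⟨l - κ, by omega⟩
  have hsplit : ∀ j, ∑ i ∈ range (κ + j), τ i =
      ∑ i ∈ range κ, τ i + ∑ i ∈ range j, τ (κ + i) := fun j => by
    rw [Finset.sum_range_add]
  obtain ⟨t, ht⟩ : ∃ t, q + ∑ i ∈ range κ, τ i = es G q X R + (t + 1) :=
    ⟨q + ∑ i ∈ range κ, τ i - es G q X R - 1, by omega⟩
  -- the missing vertices
  have hmiss : (miss G (W \ X) R).card ≤ es G q X R := by
    refine (card_miss_le G (W \ X) R).trans ?_
    rw [es]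
    refine sum_le_sum fun v hv => ?_
    have h1 := nn_split G H.hXW v
    have h2 := H.hc v (hRX hv)
    omega
  have hU := card_cnb_add_miss G (W \ X) R
  have hWX : (W \ X).card + X.card = W.card := by
    rw [card_sdiff_add_card_eq_card H.hXW]
  have hm1 : m * q = (m - 1) * q + q := by
    obtain ⟨k, rfl⟩ : ∃ k, m = k + 1 := ⟨m - 1, by have := H.hm; omega⟩
    simp only [Nat.add_sub_cancel]
    ring
  have key := greedy G l' (cnb G (W \ X) R) (fun j => W.filter (fun v => nn G W v ≤ τ (κ + j)))
    (fun j => τ (κ + j)) t ?_ ?_ ?_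
  · have h1 := TR.inj G (j := l' + 1) H.hXW hRX hRc
    have e : m + κ + (l' + 1) = m + (κ + l') + 1 := by ring
    rw [e] at h1
    omega
  · intro j _ v hv _
    rw [mem_filter] at hv
    refine (nn_mono G ?_ v).trans hv.2
    exact (filter_subset _ _).trans sdiff_subset
  · intro j hj
    have h1 := H.hY (κ + j) (by omega)
    rw [hsplit] at h1
    have h2 : (W.filter (fun v => nn G W v ≤ τ (κ + j))).card ≤
        (W.filter (fun v => nn G W v ≤ τ (κ + j)) ∩ cnb G (W \ X) R).card +
          (X.card + (miss G (W \ X) R).card) := by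
      have : W.filter (fun v => nn G W v ≤ τ (κ + j)) ⊆
          (W.filter (fun v => nn G W v ≤ τ (κ + j)) ∩ cnb G (W \ X) R) ∪
            (X ∪ miss G (W \ X) R) := by
        intro w hw
        by_cases hx : w ∈ X
        · exact mem_union_right _ (mem_union_left _ hx)
        · have hwW : w ∈ W \ X := mem_sdiff.2 ⟨(mem_filter.1 hw).1, hx⟩
          by_cases ha : ∀ s ∈ R, G.Adj s w
          · exact mem_union_left _ (mem_inter.2 ⟨hw, (mem_cnb G).2 ⟨hwW, ha⟩⟩)
          · push Not at ha
            exact mem_union_right _ (mem_union_right _ ((mem_miss G).2 ⟨hwW, ha⟩))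
      refine (card_le_card this).trans ((card_union_le _ _).trans ?_)
      exact Nat.add_le_add_left (card_union_le _ _) _
    have h3 := H.hX
    omega
  · have h1 := H.hW
    rw [hsplit] at h1
    have h3 := H.hX
    omega

end Pool.Agent.N917.KR
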