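import Pool.Agent.N917.KR.Pure

/-!
Project KR (helper917): the tail and the block theorem.
-/

namespace Pool.Agent.N917.KR

open Finset
open Pool.Agent.Results.MP_76b19e_co.ForcedCliques

section

variable {V : Type} [DecidableEq V] (G : SimpleGraph V) [DecidableRel G.Adj]

/-- unstopped -/
def Un (q : ℕ) (τ : ℕ → ℕ) (X : Finset V) (κ : ℕ) (R : Finset V) : Prop :=
  q + ∑ i ∈ range κ, τ i ≤ es G q X R

instance (q : ℕ) (τ : ℕ → ℕ) (X : Finset V) (κ : ℕ) : DecidablePred (Un G q τ X κ) :=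
  fun _ => inferInstanceAs (Decidable (_ ≤ _))

theorem tau_sum {l κ q : ℕ} {τ : ℕ → ℕ} (hτ : ∀ j < l, q + 1 + j ≤ τ j) (hκ : κ ≤ l) :
    κ * q ≤ ∑ i ∈ range κ, τ i := by
  calc κ * q = ∑ i ∈ range κ, q := by simp
    _ ≤ _ := Finset.sum_le_sum (fun i hi => by
        have := hτ i (by have := Finset.mem_range.1 hi; omega)
        omega)

/-- one step of the flow -/
theorem step (hMOVE : S_MOVE) (hBUD : S_BUD) {W X : Finset V} {q m l : ℕ} {τ : ℕ → ℕ}
    (H : Blk G W X q m l τ) {κ : ℕ} (hκ : κ ≤ l) :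
    ∑ R ∈ cl G X (m + κ), fl G q m τ X κ R =
      ∑ R ∈ (cl G X (m + κ)).filter (fun R => ¬ Un G q τ X κ R), fl G q m τ X κ R +
      ∑ R ∈ cl G X (m + (κ + 1)), fl G q m τ X (κ + 1) R := by
  have hcX : ∀ x ∈ X, nn G X x ≤ q := fun x hx => (nn_mono G H.hXW x).trans (H.hc x hx)
  rw [← Finset.sum_filter_add_sum_filter_not (cl G X (m + κ)) (Un G q τ X κ), add_comm]
  congr 1
  rw [hMOVE V G (m + κ) X (Un G q τ X κ) (fl G q m τ X κ)]
  · rfl
  · intro S hS hU
    obtain ⟨hSX, hSc⟩ := (mem_cl G).1 hS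
    have hb := (hBUD V G X S).2.1
    have hes := es_add G hSX hcX
    rw [hSc.2] at hes
    have h1 := tau_sum H.hτ hκ
    unfold Un at hU
    have hX := H.hX
    have hm := H.hm
    obtain ⟨j, rfl⟩ : ∃ j, m = j + 1 := ⟨m - 1, by omega⟩
    rw [Nat.add_sub_cancel] at hX
    have e1 : (j + 1 + κ) * q = j * q + q + κ * q := by ring
    omega

/-- all the weight is either stopped or on the last level -/
theorem flow (hMOVE : S_MOVE) (hBUD : S_BUD) {W X : Finset V} {q m l : ℕ} {τ : ℕ → ℕ}
    (H : Blk G W X q m l τ) : ∀ κ ≤ l + 1,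
    ∑ R ∈ cl G X m, fl G q m τ X 0 R =
      ∑ j ∈ range κ, ∑ R ∈ (cl G X (m + j)).filter (fun R => ¬ Un G q τ X j R),
        fl G q m τ X j R + ∑ R ∈ cl G X (m + κ), fl G q m τ X κ R := by
  intro κ
  induction κ with
  | zero => intro _; simp
  | succ κ ih =>
    intro hκ
    rw [ih (by omega), Finset.sum_range_succ, step G hMOVE hBUD H (by omega), add_assoc]

/-- the traces -/
theorem traces {W X : Finset V} {m l : ℕ} (hXW : X ⊆ W) :
    ∑ j ∈ range (l + 1), ∑ R ∈ cl G X (m + j),
      ((cl G W (m + l + 1)).filter (fun K => K ∩ X = R)).card + (cl G X (m + (l + 1))).card ≤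
    (cl G W (m + l + 1)).card := by
  classical
  have h1 : ∀ j, ∑ R ∈ cl G X (m + j),
      ((cl G W (m + l + 1)).filter (fun K => K ∩ X = R)).card ≤
      ((cl G W (m + l + 1)).filter (fun K => (K ∩ X).card = m + j)).card := by
    intro j
    rw [← Finset.card_biUnion]
    · apply Finset.card_le_card
      intro K hK
      rw [Finset.mem_biUnion] at hK
      obtain ⟨R, hR, hK⟩ := hK
      rw [Finset.mem_filter] at hK ⊢
      refine ⟨hK.1, ?_⟩
      rw [hK.2]
      exact ((mem_cl G).1 hR).2.2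
    · intro R _ R' _ hne
      rw [Function.onFun, Finset.disjoint_left]
      intro K hK hK'
      rw [Finset.mem_filter] at hK hK'
      exact hne (hK.2.symm.trans hK'.2)
  have h2 : (cl G X (m + (l + 1))).card ≤
      ((cl G W (m + l + 1)).filter (fun K => (K ∩ X).card = m + (l + 1))).card := by
    apply Finset.card_le_card
    intro K hK
    rw [mem_cl] at hK
    rw [Finset.mem_filter, mem_cl]
    refine ⟨⟨hK.1.trans hXW, ?_⟩, ?_⟩
    · rw [add_assoc]; exact hK.2
    · rw [Finset.inter_eq_left.2 hK.1]; exact hK.2.2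
  have h3 : ∑ j ∈ range (l + 2),
      ((cl G W (m + l + 1)).filter (fun K => (K ∩ X).card = m + j)).card ≤
      (cl G W (m + l + 1)).card := by
    rw [← Finset.card_biUnion]
    · apply Finset.card_le_card
      intro K hK
      rw [Finset.mem_biUnion] at hK
      obtain ⟨j, _, hK⟩ := hK
      exact (Finset.mem_filter.1 hK).1
    · intro j _ j' _ hne
      rw [Function.onFun, Finset.disjoint_left]
      intro K hK hK'
      rw [Finset.mem_filter] at hK hK'
      apply hne
      omega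
  rw [Finset.sum_range_succ] at h3
  have h4 := Finset.sum_le_sum (s := range (l + 1)) (fun j _ => h1 j)
  omega

/-- the block theorem for a nonempty tail -/
theorem tail (hSUM : S_SUM) (hMOVE : S_MOVE) (hBUD : S_BUD) (hP1 : S_P1) (hTR : S_TR)
    (hFL1 : S_FL1) (hFL2 : S_FL2) {W X : Finset V} {q m l : ℕ} {τ : ℕ → ℕ}
    (H : Blk G W X q m l τ) (hl : 1 ≤ l) : q ^ (m - 1) ≤ (cl G W (m + l + 1)).card := by
  have hcX : ∀ x ∈ X, nn G X x ≤ q := fun x hx => (nn_mono G H.hXW x).trans (H.hc x hx)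
  have hm := H.hm
  have hq := H.hq
  have hτ0 := H.hτ 0 (by omega)
  have hsum := hSUM V G q m X (by rw [H.hX]) hcX
  have hfl := flow G hMOVE hBUD H (l + 1) le_rfl
  have h0 : ∑ R ∈ cl G X m, fl G q m τ X 0 R = (q : ℝ) ^ (m - 1) := by
    have : ∀ R, fl G q m τ X 0 R = (q : ℝ) ^ (m - 1) * gw G m X R := fun R => rfl
    simp only [this]
    rw [← Finset.mul_sum, hsum, mul_one]
  have hF1 := hFL1 V G W X q m l τ H hl
  have hF2 := hFL2 V G W X q m l τ H (fun R hR h => (hF1 R hR).2.2 h)
  -- stopped cliques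
  have hst : ∀ j ≤ l, ∀ R ∈ cl G X (m + j), ¬ Un G q τ X j R →
      fl G q m τ X j R ≤ (((cl G W (m + l + 1)).filter (fun K => K ∩ X = R)).card : ℝ) := by
    intro j hj R hR hU
    unfold Un at hU
    have htr := hTR V G W X q m l j τ H hj R hR (by omega)
    rcases Nat.lt_or_ge j 1 with hj0 | hj0
    · obtain rfl : j = 0 := by omega
      simp only [Finset.range_zero, Finset.sum_empty, add_zero] at htr hU hR
      have := hP1 V G q m X R (by omega) (by nlinarith) (by rw [H.hX]) hcX hR (by omega)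
      have e : fl G q m τ X 0 R = (q : ℝ) ^ (m - 1) * gw G m X R := rfl
      rw [e]
      have htr' : (q : ℝ) ≤ es G q X R +
        (((cl G W (m + l + 1)).filter (fun K => K ∩ X = R)).card : ℝ) := by exact_mod_cast htr
      linarith
    · rcases Nat.lt_or_ge j 2 with hj1 | hj1
      · obtain rfl : j = 1 := by omega
        simp only [Finset.range_one, Finset.sum_singleton] at htr hU
        obtain ⟨f1, f2, f3⟩ := hF1 R hR
        rcases Nat.lt_or_ge (es G q X R) (2 * q) with h | h
        · refine f1.trans ?_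
          have : 2 ≤ ((cl G W (m + l + 1)).filter (fun K => K ∩ X = R)).card := by omega
          exact_mod_cast this
        · refine (f2 h).trans ?_
          have : 1 ≤ ((cl G W (m + l + 1)).filter (fun K => K ∩ X = R)).card := by omega
          exact_mod_cast this
      · refine (hF2 j hj1 (by omega) R hR).trans ?_
        have : 1 ≤ ((cl G W (m + l + 1)).filter (fun K => K ∩ X = R)).card := by omega
        exact_mod_cast this
  have hA : ∑ j ∈ range (l + 1), ∑ R ∈ (cl G X (m + j)).filter (fun R => ¬ Un G q τ X j R),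
        fl G q m τ X j R ≤ ((∑ j ∈ range (l + 1), ∑ R ∈ cl G X (m + j),
      ((cl G W (m + l + 1)).filter (fun K => K ∩ X = R)).card : ℕ) : ℝ) := by
    push_cast
    refine Finset.sum_le_sum (fun j hj => ?_)
    rw [Finset.mem_range] at hj
    refine le_trans (Finset.sum_le_sum (fun R hR => ?_)) (Finset.sum_le_sum_of_subset_of_nonneg
      (Finset.filter_subset (fun R => ¬ Un G q τ X j R) _) (fun _ _ _ => by positivity))
    rw [Finset.mem_filter] at hR
    exact hst j (by omega) R hR.1 hR.2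
  have hB : ∑ R ∈ cl G X (m + (l + 1)), fl G q m τ X (l + 1) R ≤
      ((cl G X (m + (l + 1))).card : ℝ) := by
    calc _ ≤ ∑ R ∈ cl G X (m + (l + 1)), (1 : ℝ) :=
        Finset.sum_le_sum (fun R hR => hF2 (l + 1) (by omega) le_rfl R hR)
      _ = _ := by simp
  have hC := traces G (m := m) (l := l) H.hXW
  have hC' : ((∑ j ∈ range (l + 1), ∑ R ∈ cl G X (m + j),
      ((cl G W (m + l + 1)).filter (fun K => K ∩ X = R)).card : ℕ) : ℝ) +
      ((cl G X (m + (l + 1))).card : ℝ) ≤ ((cl G W (m + l + 1)).card : ℝ) := by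
    exact_mod_cast hC
  have : ((q ^ (m - 1) : ℕ) : ℝ) ≤ ((cl G W (m + l + 1)).card : ℝ) := by
    push_cast
    rw [← h0, hfl]
    linarith
  exact_mod_cast this

end

/-- the block theorem from its parts -/
theorem blk_of (hSUM : S_SUM) (hLAST : S_LAST) (hCRUDE : S_CRUDE) (hID : S_ID) (hMOVE : S_MOVE)
    (hBUD : S_BUD) (hYF : S_YF) (hCNT : S_CNT) (hP1 : S_P1) (hNUMP : S_NUMP) (hTR : S_TR)
    (hFL1 : S_FL1) (hFL2 : S_FL2) : S_BLK := by
  intro V _ G _ W X q m l τ H
  rcases Nat.lt_or_ge l 1 with h | h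
  · obtain rfl : l = 0 := by omega
    have hW := H.hW
    simp only [Finset.range_zero, Finset.sum_empty, add_zero] at hW
    have := pure G hSUM hLAST hCRUDE hID hMOVE hBUD hYF hCNT hP1 hNUMP H.hm
      (by simpa using H.hq) H.hXW H.hX H.hc hW
    simpa using this
  · exact tail G hSUM hMOVE hBUD hP1 hTR hFL1 hFL2 H h

end Pool.Agent.N917.KR
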