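import Pool.Agent.N917.KR.Stm

/-!
Project KR: counting non-neighbours II (`S_YF`), by helper186.
-/

namespace Pool.Agent.N917.KR

open Finset
open Pool.Agent.Results.MP_76b19e_co.ForcedCliques

namespace YFaux

variable {V : Type} [DecidableEq V] (G : SimpleGraph V) [DecidableRel G.Adj]

lemma sum_cnb_eq (Y K : Finset V) :
    ∑ v ∈ K, (cnb G Y (K.erase v)).card
      = ∑ y ∈ Y, (K.filter (fun v => ∀ s ∈ K.erase v, G.Adj s y)).card := by
  unfold cnb
  simp only [Finset.card_filter]
  rw [Finset.sum_comm]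

lemma mem_of_card_one {Y K : Finset V} {y v : V} (hy : y ∈ Y)
    (h : K.filter (fun s => ¬ G.Adj s y) = {v}) :
    v ∈ K ∧ y ∈ cnb G Y (K.erase v) ∧ ∀ s ∈ K.erase v, G.Adj s y := by
  have hv : v ∈ K.filter (fun s => ¬ G.Adj s y) := by rw [h]; exact mem_singleton_self v
  have hall : ∀ s ∈ K.erase v, G.Adj s y := by
    intro s hs
    by_contra hn
    have : s ∈ K.filter (fun s => ¬ G.Adj s y) := mem_filter.2 ⟨mem_of_mem_erase hs, hn⟩
    rw [h, mem_singleton] at this
    exact ne_of_mem_erase hs this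
  exact ⟨(mem_filter.1 hv).1, (mem_cnb G).2 ⟨hy, hall⟩, hall⟩

end YFaux

open YFaux

theorem t_YF : S_YF := by
  intro V _ G _ Y K
  refine ⟨fun v _ => ?_, ?_⟩
  · have h1 := card_cnb_add_miss G Y (K.erase v)
    have h2 := card_miss_le G Y (K.erase v)
    omega
  rintro ⟨v0, hv0, h0⟩
  rw [Finset.card_eq_zero] at h0
  have hmu : ∀ y ∈ Y, 1 ≤ (K.filter (fun s => ¬ G.Adj s y)).card := by
    intro y hy
    have hn : y ∉ cnb G Y (K.erase v0) := by rw [h0]; exact notMem_empty y
    rw [mem_cnb] at hn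
    push Not at hn
    obtain ⟨s, hs, hsy⟩ := hn hy
    exact Finset.card_pos.2 ⟨s, mem_filter.2 ⟨mem_of_mem_erase hs, hsy⟩⟩
  refine ⟨?_, ?_, ?_⟩
  · rw [sum_nn_eq, sum_cnb_eq, ← Finset.sum_add_distrib, mul_comm, ← smul_eq_mul,
      ← Finset.sum_const]
    refine Finset.sum_le_sum fun y hy => ?_
    have h1 := hmu y hy
    rcases Nat.lt_or_ge 1 (K.filter (fun s => ¬ G.Adj s y)).card with h2 | h2
    · omega
    · obtain ⟨v, hv⟩ := Finset.card_eq_one.1 (le_antisymm h2 h1)
      obtain ⟨hvK, _, hall⟩ := mem_of_card_one G hy hv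
      have h3 : 1 ≤ (K.filter (fun v => ∀ s ∈ K.erase v, G.Adj s y)).card :=
        Finset.card_pos.2 ⟨v, mem_filter.2 ⟨hvK, hall⟩⟩
      omega
  · rw [sum_nn_eq, sum_nn_eq, mul_comm, ← smul_eq_mul, ← Finset.sum_const,
      ← Finset.sum_add_distrib, Finset.mul_sum]
    refine Finset.sum_le_sum fun y hy => ?_
    have h1 := hmu y hy
    have hle : ((K.filter (fun v => (cnb G Y (K.erase v)).card = 0)).filter
        (fun s => ¬ G.Adj s y)).card ≤ (K.filter (fun s => ¬ G.Adj s y)).card :=
      Finset.card_le_card (Finset.filter_subset_filter _ (Finset.filter_subset _ _))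
    rcases Nat.lt_or_ge 1 (K.filter (fun s => ¬ G.Adj s y)).card with h2 | h2
    · omega
    · obtain ⟨v, hv⟩ := Finset.card_eq_one.1 (le_antisymm h2 h1)
      obtain ⟨_, hyc, _⟩ := mem_of_card_one G hy hv
      have h3 : ((K.filter (fun v => (cnb G Y (K.erase v)).card = 0)).filter
          (fun s => ¬ G.Adj s y)) = ∅ := by
        rw [Finset.eq_empty_iff_forall_notMem]
        intro s hs
        rw [mem_filter, mem_filter] at hs
        have hs' : s ∈ K.filter (fun s => ¬ G.Adj s y) := mem_filter.2 ⟨hs.1.1, hs.2⟩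
        rw [hv, mem_singleton] at hs'
        subst hs'
        have := hs.1.2
        rw [Finset.card_eq_zero] at this
        rw [this] at hyc
        exact notMem_empty y hyc
      rw [h3, Finset.card_empty]
      omega
  · intro w hw hnn
    rw [Finset.card_eq_zero, Finset.eq_empty_iff_forall_notMem]
    intro y hy
    rw [mem_cnb] at hy
    unfold nn at hnn
    rw [Finset.card_eq_zero, Finset.filter_eq_empty_iff] at hnn
    have hwy : G.Adj w y := by
      by_contra hn
      exact hnn hy.1 hn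
    have h1 : y ∈ cnb G Y (K.erase v0) := by
      rw [mem_cnb]
      refine ⟨hy.1, fun s hs => ?_⟩
      by_cases hsw : s = w
      · rw [hsw]; exact hwy
      · exact hy.2 s (mem_erase.2 ⟨hsw, mem_of_mem_erase hs⟩)
    rw [h0] at h1
    exact notMem_empty y h1

end Pool.Agent.N917.KR
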